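import Mathlib

/-! A Rado type theorem for spans of finite sets of vectors. -/

namespace Pool.Agent.W_MP_a02419_co

open Module Submodule

variable {ι M : Type*} [AddCommGroup M] [Module ℚ M] [FiniteDimensional ℚ M]

/-- the span of the union of the sets `A i`, `i ∈ J` -/
noncomputable def famSpan (A : ι → Finset M) (J : Finset ι) : Submodule ℚ M :=
  span ℚ {m | ∃ i ∈ J, m ∈ A i}

theorem famSpan_mono (A : ι → Finset M) {J K : Finset ι} (h : J ⊆ K) :
    famSpan A J ≤ famSpan A K :=
  span_mono fun _ ⟨i, hi, hm⟩ => ⟨i, h hi, hm⟩

theorem rado_span [DecidableEq ι] [DecidableEq M] (T : Finset ι) :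
    ∀ (n : ℕ) (A : ι → Finset M), (∑ i ∈ T, (A i).card = n) →
      (∀ J ⊆ T, J.card ≤ finrank ℚ (famSpan A J)) →
      ∃ f : ι → M, (∀ i ∈ T, f i ∈ A i) ∧ T.card ≤ finrank ℚ (span ℚ (f '' (T : Set ι))) := by
  intro n
  induction n using Nat.strong_induction_on with
  | _ n ih =>
    intro A hn hJ
    by_cases hbig : ∃ i ∈ T, 2 ≤ (A i).card
    · obtain ⟨i, hiT, hi⟩ := hbig
      obtain ⟨e, he, e', he', hne⟩ := Finset.one_lt_card.mp (Nat.lt_of_lt_of_le Nat.one_lt_two hi)
      -- the two smaller families
      have key : ∀ x ∈ A i, (∀ J ⊆ T, J.card ≤ finrank ℚ
            (famSpan (Function.update A i ((A i).erase x)) J)) →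
          ∃ f : ι → M, (∀ i ∈ T, f i ∈ A i) ∧
            T.card ≤ finrank ℚ (span ℚ (f '' (T : Set ι))) := by
        intro x hx hJ'
        have hlt : ∑ j ∈ T, (Function.update A i ((A i).erase x) j).card < n := by
          rw [← hn]
          apply Finset.sum_lt_sum
          · intro j _
            by_cases hji : j = i
            · subst hji
              simp only [Function.update_self]
              exact Finset.card_le_card (Finset.erase_subset _ _)
            · simp [Function.update_of_ne hji]
          · refine ⟨i, hiT, ?_⟩
            simp only [Function.update_self]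
            exact Finset.card_erase_lt_of_mem hx
        obtain ⟨f, hf, hc⟩ := ih _ hlt _ rfl hJ'
        refine ⟨f, fun j hj => ?_, hc⟩
        have := hf j hj
        by_cases hji : j = i
        · subst hji
          simp only [Function.update_self] at this
          exact Finset.mem_of_mem_erase this
        · simpa [Function.update_of_ne hji] using this
      by_cases h1 : ∀ J ⊆ T, J.card ≤ finrank ℚ
            (famSpan (Function.update A i ((A i).erase e)) J)
      · exact key e he h1
      by_cases h2 : ∀ J ⊆ T, J.card ≤ finrank ℚ
            (famSpan (Function.update A i ((A i).erase e')) J)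
      · exact key e' he' h2
      exfalso
      push Not at h1 h2
      obtain ⟨J1, hJ1T, hJ1⟩ := h1
      obtain ⟨J2, hJ2T, hJ2⟩ := h2
      have hi1 : i ∈ J1 := by
        by_contra hcon
        have heq : famSpan (Function.update A i ((A i).erase e)) J1 = famSpan A J1 := by
          unfold famSpan
          congr 1
          ext m
          constructor
          · rintro ⟨j, hj, hm⟩
            refine ⟨j, hj, ?_⟩
            have hji : j ≠ i := fun h => hcon (h ▸ hj)
            simpa [Function.update_of_ne hji] using hm
          · rintro ⟨j, hj, hm⟩
            refine ⟨j, hj, ?_⟩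
            have hji : j ≠ i := fun h => hcon (h ▸ hj)
            simpa [Function.update_of_ne hji] using hm
        rw [heq] at hJ1
        exact absurd (hJ J1 hJ1T) (not_le.mpr hJ1)
      have hi2 : i ∈ J2 := by
        by_contra hcon
        have heq : famSpan (Function.update A i ((A i).erase e')) J2 = famSpan A J2 := by
          unfold famSpan
          congr 1
          ext m
          constructor
          · rintro ⟨j, hj, hm⟩
            refine ⟨j, hj, ?_⟩
            have hji : j ≠ i := fun h => hcon (h ▸ hj)
            simpa [Function.update_of_ne hji] using hm
          · rintro ⟨j, hj, hm⟩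
            refine ⟨j, hj, ?_⟩
            have hji : j ≠ i := fun h => hcon (h ▸ hj)
            simpa [Function.update_of_ne hji] using hm
        rw [heq] at hJ2
        exact absurd (hJ J2 hJ2T) (not_le.mpr hJ2)
      set S1 := famSpan (Function.update A i ((A i).erase e)) J1 with hS1
      set S2 := famSpan (Function.update A i ((A i).erase e')) J2 with hS2
      have hsup : famSpan A (J1 ∪ J2) ≤ S1 ⊔ S2 := by
        unfold famSpan
        rw [span_le]
        rintro m ⟨j, hj, hm⟩
        by_cases hji : j = i
        · subst hji
          by_cases hme : m = e
          · apply mem_sup_right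
            apply subset_span
            refine ⟨j, hi2, ?_⟩
            simp only [Function.update_self]
            rw [Finset.mem_erase]
            exact ⟨hme ▸ hne, hm⟩
          · apply mem_sup_left
            apply subset_span
            refine ⟨j, hi1, ?_⟩
            simp only [Function.update_self]
            rw [Finset.mem_erase]
            exact ⟨hme, hm⟩
        · rcases Finset.mem_union.mp hj with hj | hj
          · apply mem_sup_left
            apply subset_span
            exact ⟨j, hj, by simpa [Function.update_of_ne hji] using hm⟩
          · apply mem_sup_right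
            apply subset_span
            exact ⟨j, hj, by simpa [Function.update_of_ne hji] using hm⟩
      have hinf : famSpan A ((J1 ∩ J2).erase i) ≤ S1 ⊓ S2 := by
        unfold famSpan
        rw [span_le]
        rintro m ⟨j, hj, hm⟩
        rw [Finset.mem_erase, Finset.mem_inter] at hj
        obtain ⟨hji, hj1, hj2⟩ := hj
        refine ⟨?_, ?_⟩
        · apply subset_span
          exact ⟨j, hj1, by simpa [Function.update_of_ne hji] using hm⟩
        · apply subset_span
          exact ⟨j, hj2, by simpa [Function.update_of_ne hji] using hm⟩
      have e1 := hJ (J1 ∪ J2) (Finset.union_subset hJ1T hJ2T)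
      have e2 := hJ ((J1 ∩ J2).erase i)
        ((Finset.erase_subset _ _).trans (Finset.inter_subset_left.trans hJ1T))
      have e3 := finrank_mono hsup
      have e4 := finrank_mono hinf
      have e5 := Submodule.finrank_sup_add_finrank_inf_eq S1 S2
      have e6 := Finset.card_union_add_card_inter J1 J2
      have e7 : ((J1 ∩ J2).erase i).card + 1 = (J1 ∩ J2).card :=
        Finset.card_erase_add_one (Finset.mem_inter.mpr ⟨hi1, hi2⟩)
      omega
    · push Not at hbig
      have hex : ∀ i ∈ T, ∃ m, A i = {m} := by
        intro i hi
        have h1 := hJ {i} (Finset.singleton_subset_iff.mpr hi)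
        have h2 : (A i).Nonempty := by
          rw [Finset.nonempty_iff_ne_empty]
          intro hemp
          have : famSpan A {i} = ⊥ := by
            unfold famSpan
            rw [span_eq_bot]
            rintro m ⟨j, hj, hm⟩
            rw [Finset.mem_singleton] at hj
            subst hj
            rw [hemp] at hm
            simp at hm
          rw [this] at h1
          simp at h1
        have h3 : (A i).card = 1 := by
          have := hbig i hi
          have := h2.card_pos
          omega
        exact Finset.card_eq_one.mp h3
      choose! f hf using hex
      refine ⟨f, fun i hi => by rw [hf i hi]; simp, ?_⟩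
      have h1 := hJ T (le_refl _)
      have h2 : famSpan A T = span ℚ (f '' (T : Set ι)) := by
        unfold famSpan
        congr 1
        ext m
        constructor
        · rintro ⟨j, hj, hm⟩
          rw [hf j hj, Finset.mem_singleton] at hm
          exact ⟨j, hj, hm.symm⟩
        · rintro ⟨j, hj, rfl⟩
          have hj' : j ∈ T := hj
          exact ⟨j, hj', by rw [hf j hj']; simp⟩
      rw [h2] at h1
      exact h1

end Pool.Agent.W_MP_a02419_co
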