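import Mathlib
import Pool.Agent.W_MP_a02419_co.RadoSpan

/-! Kempe chains for a bipartite pattern graph give a rooted minor. -/

namespace Pool.Agent.W_MP_a02419_co

open Relation Module Submodule

universe u v

variable {V : Type u} {W : Type v}

/-- one step inside the two colours `a`, `b` -/
def KStep (G : SimpleGraph V) (c : V → W) (a b : W) (x y : V) : Prop :=
  G.Adj x y ∧ (c x = a ∨ c x = b) ∧ (c y = a ∨ c y = b)

/-- rooted minor, as a family of vertex sets -/
def Model (G : SimpleGraph V) (H : SimpleGraph W) (r : W → V) : Prop :=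
  ∃ C : W → Set V, (∀ w, r w ∈ C w) ∧
    (∀ w, ∀ z ∈ C w, ReflTransGen (fun x y => G.Adj x y ∧ x ∈ C w ∧ y ∈ C w) (r w) z) ∧
    (∀ a b, a ≠ b → Disjoint (C a) (C b)) ∧
    (∀ a b, H.Adj a b → ∃ x ∈ C a, ∃ y ∈ C b, G.Adj x y)

/-- the quotient graph -/
def qGraph (G : SimpleGraph V) (s : Setoid V) : SimpleGraph (Quotient s) where
  Adj A B := A ≠ B ∧ ∃ x y, (Quotient.mk s x) = A ∧ (Quotient.mk s y) = B ∧ G.Adj x y
  symm := ⟨by
    rintro A B ⟨hne, x, y, hx, hy, h⟩
    exact ⟨hne.symm, y, x, hy, hx, h.symm⟩⟩
  loopless := ⟨fun A h => h.1 rfl⟩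

theorem model_lift (G : SimpleGraph V) (H : SimpleGraph W) (r : W → V) (s : Setoid V)
    (hconn : ∀ x y, s x y → ReflTransGen (fun x y => G.Adj x y ∧ s x y) x y)
    (h : Model (qGraph G s) H (fun w => Quotient.mk s (r w))) : Model G H r := by
  obtain ⟨C, h1, h2, h3, h4⟩ := h
  refine ⟨fun w => {z | Quotient.mk s z ∈ C w}, h1, ?_, ?_, ?_⟩
  · intro w
    -- inside a class
    have hcls : ∀ x y, s x y → Quotient.mk s x ∈ C w →
        ReflTransGen (fun x y => G.Adj x y ∧ x ∈ {z | Quotient.mk s z ∈ C w} ∧
          y ∈ {z | Quotient.mk s z ∈ C w}) x y := by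
      intro x y hxy hx
      have hp := hconn x y hxy
      have : ReflTransGen (fun x y => G.Adj x y ∧ x ∈ {z | Quotient.mk s z ∈ C w} ∧
          y ∈ {z | Quotient.mk s z ∈ C w}) x y ∧ Quotient.mk s y ∈ C w := by
        clear hxy
        induction hp with
        | refl => exact ⟨ReflTransGen.refl, hx⟩
        | tail _ hbc ih =>
          have e : Quotient.mk s _ = Quotient.mk s _ := Quotient.sound hbc.2
          have hm := ih.2
          rw [e] at hm
          exact ⟨ih.1.tail ⟨hbc.1, ih.2, hm⟩, hm⟩
      exact this.1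
    have main : ∀ A : Quotient s,
        ReflTransGen (fun x y => (qGraph G s).Adj x y ∧ x ∈ C w ∧ y ∈ C w)
          (Quotient.mk s (r w)) A → ∀ z, Quotient.mk s z = A →
        ReflTransGen (fun x y => G.Adj x y ∧ x ∈ {z | Quotient.mk s z ∈ C w} ∧
          y ∈ {z | Quotient.mk s z ∈ C w}) (r w) z := by
      intro A hA
      induction hA with
      | refl =>
        intro z hz
        exact hcls _ _ (Quotient.exact hz.symm) (h1 w)
      | tail _ hbc ih =>
        intro z hz
        obtain ⟨⟨_, x, y, hx, hy, hxy⟩, hb, hcc⟩ := hbc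
        have hx' : Quotient.mk s x ∈ C w := by rw [hx]; exact hb
        have hy' : Quotient.mk s y ∈ C w := by rw [hy]; exact hcc
        refine ((ih x hx).tail ⟨hxy, hx', hy'⟩).trans ?_
        exact hcls y z (Quotient.exact (hy.trans hz.symm)) hy'
    intro z hz
    exact main _ (h2 w _ hz) z rfl
  · intro a b hab
    rw [Set.disjoint_left]
    intro z hz hz'
    exact Set.disjoint_left.mp (h3 a b hab) hz hz'
  · intro a b hab
    obtain ⟨A, hA, B, hB, ⟨_, x, y, hx, hy, hxy⟩⟩ := h4 a b hab
    exact ⟨x, by simpa [hx] using hA, y, by simpa [hy] using hB, hxy⟩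

/-- a proper contraction which keeps all Kempe chains -/
def Red (G : SimpleGraph V) (H : SimpleGraph W) (r : W → V) : Prop :=
  ∃ (s : Setoid V) (c' : V → W), (∃ x y, x ≠ y ∧ s x y) ∧ (∀ w, c' (r w) = w) ∧
    (∀ x y, s x y → c' x = c' y) ∧
    (∀ x y, s x y → ReflTransGen (fun x y => G.Adj x y ∧ s x y) x y) ∧
    (∀ a b, H.Adj a b → ReflTransGen (fun x y => (s x y ∨ G.Adj x y) ∧
      (c' x = a ∨ c' x = b) ∧ (c' y = a ∨ c' y = b)) (r a) (r b))

/-- contraction of an edge inside a colour -/
theorem red_mono (G : SimpleGraph V) (H : SimpleGraph W) (r : W → V) (c : V → W)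
    (hc : ∀ w, c (r w) = w)
    (hk : ∀ a b, H.Adj a b → ReflTransGen (KStep G c a b) (r a) (r b))
    (p q : V) (hpq : G.Adj p q) (hcol : c p = c q) : Red G H r := by
  classical
  let g : V → V := fun x => if x = q then p else x
  have hgc : ∀ x, c (g x) = c x := by
    intro x
    by_cases hx : x = q
    · subst hx; simp [g, hcol]
    · simp [g, hx]
  refine ⟨Setoid.ker g, c, ⟨p, q, hpq.ne, ?_⟩, hc, ?_, ?_, ?_⟩
  · change g p = g q
    simp [g, hpq.ne]
  · intro x y hxy
    have : g x = g y := hxy
    rw [← hgc x, ← hgc y, this]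
  · intro x y hxy
    have h : g x = g y := hxy
    by_cases hx : x = q
    · by_cases hy : y = q
      · rw [hx, hy]
      · have hyp : y = p := by
          simpa [g, hx, hy] using h.symm
        rw [hx, hyp]
        refine ReflTransGen.single ⟨hpq.symm, ?_⟩
        change g q = g p
        simp [g, hpq.ne]
    · by_cases hy : y = q
      · have hxp : x = p := by
          simpa [g, hx, hy] using h
        rw [hy, hxp]
        refine ReflTransGen.single ⟨hpq, ?_⟩
        change g p = g q
        simp [g, hpq.ne]
      · have : x = y := by simpa [g, hx, hy] using h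
        rw [this]
  · intro a b hab
    exact ReflTransGen.mono (fun x y hxy => ⟨Or.inr hxy.1, hxy.2⟩) _ _ (hk a b hab)

/-- the general contraction of a set `T` of labels -/
theorem red_general (G : SimpleGraph V) (H : SimpleGraph W) (r : W → V) (c : V → W)
    (hc : ∀ w, c (r w) = w)
    (hk : ∀ a b, H.Adj a b → ReflTransGen (KStep G c a b) (r a) (r b))
    (proper : ∀ x y, G.Adj x y → c x ≠ c y) (side : W → Prop)
    (hb : ∀ a b, H.Adj a b → (side a ↔ ¬ side b))
    (T : Set V) (hT : T.Nonempty) (hTs : ∀ p ∈ T, ¬ side (c p)) (hTr : ∀ p ∈ T, ∀ w, r w ≠ p)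
    (g : V → V) (hg : ∀ z, z ∉ T → g z = z)
    (hgT : ∀ p ∈ T, G.Adj p (g p) ∧ side (c (g p)))
    (E : Setoid V) (hEc : ∀ x y, E x y → c x = c y)
    (hEconn : ∀ x y, E x y → ReflTransGen (fun x y => G.Adj x y ∧ E (g x) (g y)) x y)
    (hEK : ∀ p ∈ T, ∀ a a', G.Adj p a → G.Adj p a' → side (c a) → c a = c a' → E a a') :
    Red G H r := by
  have hnT : ∀ z, side (c z) → z ∉ T := fun z hz hzT => hTs z hzT hz
  have hgg : ∀ z, g (g z) = g z := by
    intro z
    by_cases hz : z ∈ T
    · exact hg _ (hnT _ (hgT z hz).2)
    · rw [hg z hz, hg z hz]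
  have hrT : ∀ w, r w ∉ T := fun w hw => hTr _ hw w rfl
  refine ⟨E.comap g, fun z => c (g z), ?_, ?_, ?_, ?_, ?_⟩
  · obtain ⟨p, hp⟩ := hT
    refine ⟨p, g p, (hgT p hp).1.ne, ?_⟩
    change E (g p) (g (g p))
    rw [hgg]
  · intro w
    change c (g (r w)) = w
    rw [hg _ (hrT w), hc]
  · intro x y hxy
    exact hEc _ _ hxy
  · intro x y hxy
    have hxy' : E (g x) (g y) := hxy
    have hto : ∀ z, ReflTransGen (fun x y => G.Adj x y ∧ E (g x) (g y)) z (g z) := by
      intro z
      by_cases hz : z ∈ T
      · refine ReflTransGen.single ⟨(hgT z hz).1, ?_⟩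
        rw [hgg]
      · rw [hg z hz]
    have hfrom : ∀ z, ReflTransGen (fun x y => G.Adj x y ∧ E (g x) (g y)) (g z) z := by
      intro z
      by_cases hz : z ∈ T
      · refine ReflTransGen.single ⟨(hgT z hz).1.symm, ?_⟩
        rw [hgg]
      · rw [hg z hz]
    exact ((hto x).trans (hEconn _ _ hxy')).trans (hfrom y)
  · intro a b hab
    have hside := hb a b hab
    have key : ∀ z, ReflTransGen (KStep G c a b) (r a) z →
        ((z ∉ T → ReflTransGen (fun x y => ((E.comap g) x y ∨ G.Adj x y) ∧
          (c (g x) = a ∨ c (g x) = b) ∧ (c (g y) = a ∨ c (g y) = b)) (r a) z) ∧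
        (z ∈ T → ∀ t, G.Adj z t → side (c t) → (c t = a ∨ c t = b) →
          ReflTransGen (fun x y => ((E.comap g) x y ∨ G.Adj x y) ∧
          (c (g x) = a ∨ c (g x) = b) ∧ (c (g y) = a ∨ c (g y) = b)) (r a) t)) := by
      intro z hz
      induction hz with
      | refl => exact ⟨fun _ => ReflTransGen.refl, fun h => absurd h (hrT a)⟩
      | @tail z z' _ hstep ih =>
        obtain ⟨hadj, hcz, hcz'⟩ := hstep
        have hne := proper _ _ hadj
        by_cases hzT : z ∈ T
        · by_cases hzT' : z' ∈ T
          · exfalso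
            have h1 := hTs _ hzT
            have h2 := hTs _ hzT'
            rcases hcz with h | h <;> rcases hcz' with h' | h'
            · exact hne (h.trans h'.symm)
            · rw [h] at h1; rw [h'] at h2; tauto
            · rw [h] at h1; rw [h'] at h2; tauto
            · exact hne (h.trans h'.symm)
          · refine ⟨fun _ => ih.2 hzT z' hadj ?_ hcz', fun h => absurd h hzT'⟩
            have h1 := hTs _ hzT
            rcases hcz with h | h <;> rcases hcz' with h' | h'
            · exact absurd (h.trans h'.symm) hne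
            · rw [h] at h1; rw [h']; tauto
            · rw [h] at h1; rw [h']; tauto
            · exact absurd (h.trans h'.symm) hne
        · have hreach := ih.1 hzT
          by_cases hzT' : z' ∈ T
          · refine ⟨fun h => absurd hzT' h, fun _ t hadjt hst hct => ?_⟩
            have h2 := hTs _ hzT'
            have hsz : side (c z) := by
              rcases hcz with h | h <;> rcases hcz' with h' | h'
              · exact absurd (h.trans h'.symm) hne
              · rw [h'] at h2; rw [h]; tauto
              · rw [h'] at h2; rw [h]; tauto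
              · exact absurd (h.trans h'.symm) hne
            have hczt : c z = c t := by
              rcases hcz with h | h <;> rcases hct with h' | h'
              · exact h.trans h'.symm
              · rw [h] at hsz; rw [h'] at hst; tauto
              · rw [h] at hsz; rw [h'] at hst; tauto
              · exact h.trans h'.symm
            have hE := hEK z' hzT' z t hadj.symm hadjt hsz hczt
            refine hreach.tail ⟨Or.inl ?_, ?_, ?_⟩
            · change E (g z) (g t)
              rw [hg z hzT, hg t (hnT t hst)]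
              exact hE
            · rw [hg z hzT]; exact hcz
            · rw [hg t (hnT t hst)]; exact hct
          · refine ⟨fun _ => hreach.tail ⟨Or.inr hadj, ?_, ?_⟩, fun h => absurd h hzT'⟩
            · rw [hg z hzT]; exact hcz
            · rw [hg z' hzT']; exact hcz'
    exact (key _ (hk a b hab)).1 (hrT b)

/-- the basis vector of a non-root node, and `0` otherwise -/
noncomputable def vec [DecidableEq V] (N : Finset V) (x : V) : V → ℚ :=
  if x ∈ N then Pi.single x 1 else 0

theorem red_side [Fintype V] (G : SimpleGraph V) (H : SimpleGraph W) (r : W → V) (c : V → W)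
    (hc : ∀ w, c (r w) = w)
    (hk : ∀ a b, H.Adj a b → ReflTransGen (KStep G c a b) (r a) (r b))
    (proper : ∀ x y, G.Adj x y → c x ≠ c y) (side : W → Prop)
    (hb : ∀ a b, H.Adj a b → (side a ↔ ¬ side b))
    (NX NY : Finset V)
    (hNX : ∀ v, v ∈ NX ↔ (∀ w, r w ≠ v) ∧ side (c v) ∧ ∃ u, G.Adj v u ∧ ¬ side (c u))
    (hNY : ∀ v, v ∈ NY ↔ (∀ w, r w ≠ v) ∧ ¬ side (c v) ∧ ∃ u, G.Adj v u ∧ side (c u))
    (hne : NY.Nonempty) (hcard : NX.card ≤ NY.card) : Red G H r := by
  classical
  let A : V → Finset (V → ℚ) := fun p =>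
    ((Finset.univ : Finset (V × V)).filter (fun ab => G.Adj p ab.1 ∧ G.Adj p ab.2 ∧
      side (c ab.1) ∧ c ab.1 = c ab.2)).image (fun ab => vec NX ab.1 - vec NX ab.2)
  have memA : ∀ p m, m ∈ A p ↔ ∃ a b, G.Adj p a ∧ G.Adj p b ∧ side (c a) ∧ c a = c b ∧
      vec NX a - vec NX b = m := by
    intro p m
    simp only [A, Finset.mem_image, Finset.mem_filter, Finset.mem_univ, true_and, Prod.exists]
    constructor
    · rintro ⟨a, b, ⟨h1, h2, h3, h4⟩, h5⟩
      exact ⟨a, b, h1, h2, h3, h4, h5⟩
    · rintro ⟨a, b, h1, h2, h3, h4, h5⟩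
      exact ⟨a, b, ⟨h1, h2, h3, h4⟩, h5⟩
  -- rank bound
  have hrank : finrank ℚ (famSpan A NY) ≤ NY.card := by
    refine le_trans ?_ hcard
    have h1 : famSpan A NY ≤ span ℚ ((NX.image (vec NX) : Finset (V → ℚ)) : Set (V → ℚ)) := by
      unfold famSpan
      rw [span_le]
      have hv : ∀ x, vec NX x ∈ span ℚ ((NX.image (vec NX) : Finset (V → ℚ)) : Set (V → ℚ)) := by
        intro x
        by_cases hx : x ∈ NX
        · apply subset_span
          exact Finset.mem_coe.mpr (Finset.mem_image_of_mem _ hx)
        · have : vec NX x = 0 := by simp [vec, hx]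
          rw [this]
          exact zero_mem _
      rintro m ⟨p, _, hm⟩
      obtain ⟨a, b, _, _, _, _, rfl⟩ := (memA p m).mp hm
      exact sub_mem (hv a) (hv b)
    refine (finrank_mono h1).trans ?_
    exact (finrank_span_finset_le_card _).trans Finset.card_image_le
  -- a smallest label set
  have hex : ∃ T ∈ (NY.powerset.filter (fun T => T.Nonempty ∧
      finrank ℚ (famSpan A T) ≤ T.card)), ∀ T' ∈ (NY.powerset.filter (fun T => T.Nonempty ∧
      finrank ℚ (famSpan A T) ≤ T.card)), T.card ≤ T'.card := by
    apply Finset.exists_min_image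
    exact ⟨NY, by simp [hne, hrank]⟩
  obtain ⟨T, hTmem, hTmin⟩ := hex
  rw [Finset.mem_filter, Finset.mem_powerset] at hTmem
  obtain ⟨hTNY, hTne, hTrank⟩ := hTmem
  have hTmin' : ∀ T' ⊆ T, T'.Nonempty → T' ≠ T → T'.card < finrank ℚ (famSpan A T') := by
    intro T' hT' hne' hneq
    by_contra hcon
    push Not at hcon
    have := hTmin T' (by
      rw [Finset.mem_filter, Finset.mem_powerset]
      exact ⟨hT'.trans hTNY, hne', hcon⟩)
    exact hneq (Finset.eq_of_subset_of_card_le hT' this)
  -- facts on labels
  have hTs : ∀ p ∈ (T : Set V), ¬ side (c p) := fun p hp => ((hNY p).mp (hTNY hp)).2.1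
  have hTr : ∀ p ∈ (T : Set V), ∀ w, r w ≠ p := fun p hp => ((hNY p).mp (hTNY hp)).1
  have hroot : ∀ p ∈ T, ∀ a, G.Adj p a → side (c a) → a ∉ NX → r (c a) = a := by
    intro p hp a hpa hsa hna
    by_contra hcon
    apply hna
    rw [hNX]
    refine ⟨?_, hsa, p, hpa.symm, hTs p hp⟩
    intro w hw
    apply hcon
    rw [← hw, hc]
  by_cases hfull : T.card ≤ finrank ℚ (famSpan A T)
  · -- the Rado case
    obtain ⟨f, hf, hfc⟩ := rado_span T _ A rfl (by
      intro J hJ
      by_cases hJT : J = T
      · rw [hJT]; exact hfull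
      · rcases Finset.eq_empty_or_nonempty J with h0 | h0
        · rw [h0]; simp
        · exact (hTmin' J hJ h0 hJT).le)
    have hspan : span ℚ (f '' (T : Set V)) = famSpan A T := by
      apply Submodule.eq_of_le_of_finrank_le
      · rw [span_le]
        rintro m ⟨p, hp, rfl⟩
        exact subset_span ⟨p, hp, hf p hp⟩
      · exact hTrank.trans hfc
    have hch : ∀ p, ∃ a b, p ∈ T → (G.Adj p a ∧ G.Adj p b ∧ side (c a) ∧ c a = c b ∧
        vec NX a - vec NX b = f p) := by
      intro p
      by_cases hp : p ∈ T
      · obtain ⟨a, b, h⟩ := (memA p _).mp (hf p hp)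
        exact ⟨a, b, fun _ => h⟩
      · exact ⟨p, p, fun h => absurd h hp⟩
    choose fa fb hfab using hch
    let R : V → V → Prop := fun x y => ∃ p ∈ T, x = fa p ∧ y = fb p
    let E : Setoid V := EqvGen.setoid R
    let g : V → V := fun z => if z ∈ T then fa z else z
    have hgT' : ∀ z ∈ T, g z = fa z := fun z hz => by simp [g, hz]
    have hgn : ∀ z, z ∉ T → g z = z := fun z hz => by simp [g, hz]
    have hEc : ∀ x y, E x y → c x = c y := by
      intro x y hxy
      have h : EqvGen R x y := hxy
      induction h with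
      | rel x y h =>
        obtain ⟨p, hp, rfl, rfl⟩ := h
        exact (hfab p hp).2.2.2.1
      | refl x => rfl
      | symm x y _ ih => exact (ih (by assumption)).symm
      | trans x y z _ _ ih1 ih2 => exact (ih1 (by assumption)).trans (ih2 (by assumption))
    have hnT : ∀ z, side (c z) → z ∉ T := fun z hz hzT => hTs z hzT hz
    refine red_general G H r c hc hk proper side hb (T : Set V) hTne hTs hTr g
      (fun z hz => hgn z hz) ?_ E hEc ?_ ?_
    · intro p hp
      rw [hgT' p hp]
      exact ⟨(hfab p hp).1, (hfab p hp).2.2.1⟩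
    · -- connectivity
      have hsymm : ∀ x y, ReflTransGen (fun x y => G.Adj x y ∧ E (g x) (g y)) x y →
          ReflTransGen (fun x y => G.Adj x y ∧ E (g x) (g y)) y x := by
        intro x y h
        induction h with
        | refl => exact ReflTransGen.refl
        | tail _ hbc ih => exact ReflTransGen.head ⟨hbc.1.symm, E.symm hbc.2⟩ ih
      intro x y hxy
      have h : EqvGen R x y := hxy
      clear hxy
      induction h with
      | rel x y h =>
        obtain ⟨p, hp, rfl, rfl⟩ := h
        have hp' := hfab p hp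
        have ha : fa p ∉ T := hnT _ hp'.2.2.1
        have hbb : fb p ∉ T := hnT _ (hp'.2.2.2.1 ▸ hp'.2.2.1)
        refine ReflTransGen.head (b := p) ⟨hp'.1.symm, ?_⟩ (ReflTransGen.single ⟨hp'.2.1, ?_⟩)
        · rw [hgn _ ha, hgT' p hp]
        · rw [hgT' p hp, hgn _ hbb]
          exact EqvGen.rel _ _ ⟨p, hp, rfl, rfl⟩
      | refl x => exact ReflTransGen.refl
      | symm x y _ ih => exact hsymm _ _ ih
      | trans x y z _ _ ih1 ih2 => exact ih1.trans ih2
    · -- arcs of labels in `T` are inside classes
      -- one sided version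
      have half : ∀ p ∈ T, ∀ a a', G.Adj p a → G.Adj p a' → side (c a) → c a = c a' →
          ¬ E a (r (c a)) → ¬ E a a' → False := by
        intro p hp a a' hpa hpa' hsa hcaa hroota hnot
        have hvmem : vec NX a - vec NX a' ∈ span ℚ (f '' (T : Set V)) := by
          rw [hspan]
          exact subset_span ⟨p, hp, (memA p _).mpr ⟨a, a', hpa, hpa', hsa, hcaa, rfl⟩⟩
        let φ : (V → ℚ) →ₗ[ℚ] ℚ :=
          ∑ z ∈ (Finset.univ : Finset V).filter (fun z => E z a), LinearMap.proj z
        have hφ : ∀ x, x ∈ NX → φ (vec NX x) = if E x a then 1 else 0 := by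
          intro x hx
          simp only [φ, LinearMap.coe_sum, Finset.sum_apply, LinearMap.proj_apply, vec, hx,
            if_true]
          simp [Pi.single_apply]
        have hφ0 : ∀ x, x ∉ NX → φ (vec NX x) = 0 := by
          intro x hx
          simp [vec, hx]
        have hker : span ℚ (f '' (T : Set V)) ≤ LinearMap.ker φ := by
          rw [span_le]
          rintro m ⟨q, hq, rfl⟩
          have hq' := hfab q hq
          have hsym : E (fa q) a ↔ E (fb q) a := by
            have hrel : E (fa q) (fb q) := EqvGen.rel _ _ ⟨q, hq, rfl, rfl⟩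
            exact ⟨fun h => E.trans (E.symm hrel) h, fun h => E.trans hrel h⟩
          have hin : ∀ x, G.Adj q x → side (c x) → E x a → x ∈ NX := by
            intro x hqx hsx hxa
            by_contra hcon
            have := hroot q hq x hqx hsx hcon
            apply hroota
            have hcx : c x = c a := hEc _ _ hxa
            rw [hcx] at this
            rw [this]
            exact E.symm hxa
          rw [SetLike.mem_coe, LinearMap.mem_ker, ← hq'.2.2.2.2, map_sub]
          have hval : ∀ x, G.Adj q x → side (c x) → φ (vec NX x) = if E x a then 1 else 0 := by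
            intro x hqx hsx
            by_cases hx : x ∈ NX
            · exact hφ x hx
            · rw [hφ0 x hx, if_neg]
              exact fun h => hx (hin x hqx hsx h)
          rw [hval _ hq'.1 hq'.2.2.1, hval _ hq'.2.1 (hq'.2.2.2.1 ▸ hq'.2.2.1)]
          by_cases h : E (fa q) a
          · rw [if_pos h, if_pos (hsym.mp h)]; simp
          · rw [if_neg h, if_neg (fun h' => h (hsym.mpr h'))]; simp
        have hzero := hker hvmem
        rw [LinearMap.mem_ker, map_sub] at hzero
        have haNX : a ∈ NX := by
          by_contra hcon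
          apply hroota
          rw [hroot p hp a hpa hsa hcon]
        have h1 : φ (vec NX a) = 1 := by rw [hφ a haNX, if_pos (E.refl a)]
        have h2 : φ (vec NX a') = 0 := by
          by_cases hx : a' ∈ NX
          · rw [hφ a' hx, if_neg]
            exact fun h => hnot (E.symm h)
          · exact hφ0 a' hx
        rw [h1, h2] at hzero
        norm_num at hzero
      intro p hp a a' hpa hpa' hsa hcaa
      by_contra hnot
      by_cases hra : E a (r (c a))
      · have hra' : ¬ E a' (r (c a')) := by
          intro h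
          apply hnot
          rw [← hcaa] at h
          exact E.trans hra (E.symm h)
        exact half p hp a' a hpa' hpa (hcaa ▸ hsa) hcaa.symm hra' (fun h => hnot (E.symm h))
      · exact half p hp a a' hpa hpa' hsa hcaa hra hnot
  · -- the rank is less than the number of labels: a single useless label
    push Not at hfull
    obtain ⟨p, hp⟩ := hTne
    have hT1 : T = {p} := by
      by_contra hne1
      have hsub : T.erase p ⊆ T := Finset.erase_subset _ _
      have hne2 : (T.erase p).Nonempty := by
        rw [Finset.nonempty_iff_ne_empty]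
        intro h
        apply hne1
        rw [Finset.erase_eq_empty_iff] at h
        rcases h with h | h
        · rw [h] at hp; simp at hp
        · exact h
      have hne3 : T.erase p ≠ T := by
        intro h
        have := Finset.notMem_erase p T
        rw [h] at this
        exact this hp
      have h1 := hTmin' _ hsub hne2 hne3
      have h2 := finrank_mono (famSpan_mono A hsub)
      have h3 := Finset.card_erase_add_one hp
      omega
    have hz : finrank ℚ (famSpan A T) = 0 := by
      rw [hT1] at hfull ⊢
      simpa using hfull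
    have hbot : famSpan A T = ⊥ := Submodule.finrank_eq_zero.mp hz
    obtain ⟨q, hpq, hsq⟩ := ((hNY p).mp (hTNY hp)).2.2
    let g : V → V := fun z => if z = p then q else z
    have hpT : ∀ z, z ∈ (({p} : Finset V) : Set V) ↔ z = p := by intro z; simp
    refine red_general G H r c hc hk proper side hb (T : Set V) ⟨p, hp⟩ hTs hTr g
      ?_ ?_ ⊥ ?_ ?_ ?_
    · intro z hz
      have : z ≠ p := fun h => hz (h ▸ hp)
      simp [g, this]
    · intro z hz
      rw [hT1, hpT] at hz
      subst hz
      simp [g, hpq, hsq]
    · intro x y hxy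
      have : x = y := hxy
      rw [this]
    · intro x y hxy
      have : x = y := hxy
      rw [this]
    · intro z hz a a' hza hza' hsa hcaa
      have hvz : vec NX a - vec NX a' = 0 := by
        have : vec NX a - vec NX a' ∈ famSpan A T :=
          subset_span ⟨z, hz, (memA z _).mpr ⟨a, a', hza, hza', hsa, hcaa, rfl⟩⟩
        rw [hbot] at this
        exact (Submodule.mem_bot ℚ).mp this
      have hvv : vec NX a = vec NX a' := sub_eq_zero.mp hvz
      change a = a'
      by_cases ha : a ∈ NX
      · by_cases ha' : a' ∈ NX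
        · simp only [vec, ha, ha', if_true] at hvv
          by_contra hne4
          have := congrFun hvv a
          simp [Pi.single_apply, hne4] at this
        · simp only [vec, ha, ha', if_true, if_false] at hvv
          have := congrFun hvv a
          simp at this
      · by_cases ha' : a' ∈ NX
        · simp only [vec, ha, ha', if_true, if_false] at hvv
          have := congrFun hvv a'
          simp at this
        · have h1 := hroot z hz a hza hsa ha
          have h2 := hroot z hz a' hza' (hcaa ▸ hsa) ha'
          rw [← h1, ← h2, hcaa]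

end Pool.Agent.W_MP_a02419_co
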