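import Mathlib
import Pool.Agent.W_MP_a02419_co.KempeBip

/-! Main induction: Kempe chains for a bipartite pattern give a rooted minor. -/

namespace Pool.Agent.W_MP_a02419_co

open Relation Module Submodule

universe u v

variable {V : Type u} {W : Type v}

/-- the last step: no vertex left but the roots matters -/
theorem model_terminal (G : SimpleGraph V) (H : SimpleGraph W) (r : W → V) (c : V → W)
    (hc : ∀ w, c (r w) = w)
    (hk : ∀ a b, H.Adj a b → ReflTransGen (KStep G c a b) (r a) (r b))
    (proper : ∀ x y, G.Adj x y → c x ≠ c y) (side : W → Prop)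
    (hb : ∀ a b, H.Adj a b → (side a ↔ ¬ side b))
    (hX : ∀ v, ¬ ((∀ w, r w ≠ v) ∧ side (c v) ∧ ∃ u, G.Adj v u ∧ ¬ side (c u)))
    (hY : ∀ v, ¬ ((∀ w, r w ≠ v) ∧ ¬ side (c v) ∧ ∃ u, G.Adj v u ∧ side (c u))) :
    Model G H r := by
  refine ⟨fun w => {r w}, fun w => rfl, ?_, ?_, ?_⟩
  · intro w z hz
    rw [Set.mem_singleton_iff] at hz
    rw [hz]
  · intro a b hab
    rw [Set.disjoint_singleton]
    intro h
    exact hab (by rw [← hc a, ← hc b, h])
  · intro a b hab
    refine ⟨r a, rfl, r b, rfl, ?_⟩
    rcases ReflTransGen.cases_head (hk a b hab) with h | ⟨z, hz, _⟩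
    · exact absurd (by rw [← hc a, ← hc b, h]) hab.ne
    · obtain ⟨hadj, _, hcz⟩ := hz
      have hne := proper _ _ hadj
      rw [hc] at hne
      have hczb : c z = b := by
        rcases hcz with h | h
        · exact absurd h.symm hne
        · exact h
      have hroot : ∃ w, r w = z := by
        by_contra hcon
        push Not at hcon
        have hs := hb a b hab
        by_cases hsa : side a
        · exact hY z ⟨hcon, by rw [hczb]; exact hs.mp hsa, r a, hadj.symm, by rw [hc]; exact hsa⟩
        · refine hX z ⟨hcon, ?_, r a, hadj.symm, by rw [hc]; exact hsa⟩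
          rw [hczb]
          by_contra h
          exact hsa (hs.mpr h)
      obtain ⟨w, hw⟩ := hroot
      have : w = b := by rw [← hc w, hw, hczb]
      rw [← this, hw]
      exact hadj

theorem kempe_main (H : SimpleGraph W) (side : W → Prop)
    (hb : ∀ a b, H.Adj a b → (side a ↔ ¬ side b)) (n : ℕ) :
    ∀ (V : Type u) [Finite V] (G : SimpleGraph V) (r : W → V) (c : V → W),
      Nat.card V = n → (∀ w, c (r w) = w) →
      (∀ a b, H.Adj a b → ReflTransGen (KStep G c a b) (r a) (r b)) → Model G H r := by
  induction n using Nat.strong_induction_on with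
  | _ n ih =>
    intro V _ G r c hn hc hk
    have step : Red G H r → Model G H r := by
      rintro ⟨s, c', ⟨x, y, hxy, hsxy⟩, hc', hcomp, hconn, hk'⟩
      apply model_lift G H r s hconn
      have hlt : Nat.card (Quotient s) < n := by
        rw [← hn]
        have hsurj : Function.Surjective (Quotient.mk s) := Quotient.mk_surjective
        have hninj : ¬ Function.Injective (Quotient.mk s) := fun h =>
          hxy (h (Quotient.sound hsxy))
        refine lt_of_le_of_ne (Nat.card_le_card_of_surjective _ hsurj) ?_
        intro heq
        apply hninj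
        exact ((Nat.bijective_iff_surjective_and_card (Quotient.mk s)).mpr
          ⟨hsurj, heq.symm⟩).1
      refine ih _ hlt (Quotient s) (qGraph G s) _ (Quotient.lift c' hcomp) rfl hc' ?_
      intro a b hab
      have key : ∀ t, ReflTransGen (fun x y => (s x y ∨ G.Adj x y) ∧
          (c' x = a ∨ c' x = b) ∧ (c' y = a ∨ c' y = b)) (r a) t →
          ReflTransGen (KStep (qGraph G s) (Quotient.lift c' hcomp) a b)
            (Quotient.mk s (r a)) (Quotient.mk s t) := by
        intro t ht
        induction ht with
        | refl => exact ReflTransGen.refl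
        | @tail z z' _ hstep ih' =>
          by_cases hzz : Quotient.mk s z = Quotient.mk s z'
          · rw [← hzz]; exact ih'
          · refine ih'.tail ⟨⟨hzz, z, z', rfl, rfl, ?_⟩, hstep.2.1, hstep.2.2⟩
            rcases hstep.1 with h | h
            · exact absurd (Quotient.sound h) hzz
            · exact h
      exact key _ (hk' a b hab)
    by_cases hmono : ∃ p q, G.Adj p q ∧ c p = c q
    · obtain ⟨p, q, hpq, hcol⟩ := hmono
      exact step (red_mono G H r c hc hk p q hpq hcol)
    · push Not at hmono
      classical
      have := Fintype.ofFinite V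
      let NX : Finset V := Finset.univ.filter (fun v =>
        (∀ w, r w ≠ v) ∧ side (c v) ∧ ∃ u, G.Adj v u ∧ ¬ side (c u))
      let NY : Finset V := Finset.univ.filter (fun v =>
        (∀ w, r w ≠ v) ∧ ¬ side (c v) ∧ ∃ u, G.Adj v u ∧ side (c u))
      have hNX : ∀ v, v ∈ NX ↔ (∀ w, r w ≠ v) ∧ side (c v) ∧ ∃ u, G.Adj v u ∧ ¬ side (c u) := by
        intro v; simp [NX]
      have hNY : ∀ v, v ∈ NY ↔ (∀ w, r w ≠ v) ∧ ¬ side (c v) ∧ ∃ u, G.Adj v u ∧ side (c u) := by
        intro v; simp [NY]
      have hb' : ∀ a b, H.Adj a b → ((¬ side a) ↔ ¬ ¬ side b) := by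
        intro a b hab
        have := hb a b hab
        tauto
      rcases Nat.lt_or_ge NY.card NX.card with hlt | hge
      · -- labels on the side `X`
        apply step
        refine red_side G H r c hc hk hmono (fun w => ¬ side w) hb' NY NX ?_ ?_ ?_ hlt.le
        · exact fun v => by rw [hNY]; simp only [not_not]
        · exact fun v => by rw [hNX]; simp only [not_not]
        · exact Finset.card_pos.mp (by omega)
      · rcases Finset.eq_empty_or_nonempty NY with h0 | h0
        · have h0' : NX = ∅ := by
            rw [← Finset.card_eq_zero]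
            rw [h0] at hge
            simpa using hge
          refine model_terminal G H r c hc hk hmono side hb ?_ ?_
          · intro v hv
            have := (hNX v).mpr hv
            rw [h0'] at this
            simp at this
          · intro v hv
            have := (hNY v).mpr hv
            rw [h0] at this
            simp at this
        · exact step (red_side G H r c hc hk hmono side hb NX NY hNX hNY h0 hge)

end Pool.Agent.W_MP_a02419_co
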