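import Mathlib

/-!
# A matroid partition lemma (linear version)

For finitely many vector configurations `v w : E → U` and a finite nonempty set `S` of labels with
`∑ w, rank (v w) S ≤ |S|` there is a nonempty `L ⊆ S` and an ownership `o : E → A` such that for
every `w` the labels of `L` owned by `w` span all labels of `L` in the configuration `v w`.
-/

set_option linter.unusedSectionVars false

namespace Pool.Agent.W_MP_a02419_co

open Submodule Module

variable {K U E A : Type*} [Field K] [AddCommGroup U] [Module K U] [FiniteDimensional K U]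
  [Fintype A] [DecidableEq A] [DecidableEq E] [Nonempty A]

/-- total relative rank -/
noncomputable def R (v : A → E → U) (N : A → Submodule K U) (T : Finset E) : ℕ :=
  ∑ w, finrank K ↥(N w ⊔ span K (v w '' (T : Set E)))

theorem sup_span_empty (f : E → U) (N : Submodule K U) :
    N ⊔ span K (f '' ((∅ : Finset E) : Set E)) = N := by simp

theorem R_mono_set (v : A → E → U) (N : A → Submodule K U) {S T : Finset E} (h : S ⊆ T) :
    R v N S ≤ R v N T := by
  unfold R
  apply Finset.sum_le_sum
  intro w _
  apply Submodule.finrank_mono
  apply sup_le_sup_left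
  apply span_mono
  apply Set.image_mono
  exact_mod_cast h

theorem R_mono_sub (v : A → E → U) {N N' : A → Submodule K U} (S : Finset E)
    (h : ∀ w, N w ≤ N' w) : R v N S ≤ R v N' S := by
  unfold R
  apply Finset.sum_le_sum
  intro w _
  apply Submodule.finrank_mono
  exact sup_le_sup_right (h w) _

theorem R_contract (v : A → E → U) (N : A → Submodule K U) (T X : Finset E) :
    R v (fun w => N w ⊔ span K (v w '' (T : Set E))) X = R v N (T ∪ X) := by
  unfold R
  apply Finset.sum_congr rfl
  intro w _
  rw [Finset.coe_union, Set.image_union, span_union, sup_assoc]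

theorem lemmaQ (v : A → E → U) : ∀ (n : ℕ) (S : Finset E), S.card = n →
    ∀ N : A → Submodule K U, R v N S = R v N ∅ + S.card →
    (∀ T ⊆ S, R v N ∅ + T.card ≤ R v N T) →
    ∃ o : E → A, ∀ w, ∀ e ∈ S,
      v w e ∈ N w ⊔ span K (v w '' {e' | e' ∈ S ∧ o e' = w}) := by
  intro n
  induction n using Nat.strong_induction_on with
  | _ n ih =>
  intro S hSn N hS hT
  by_cases hcase : ∃ T, T ⊆ S ∧ T ≠ S ∧ T.Nonempty ∧ R v N T = R v N ∅ + T.card
  · -- a proper nonempty tight set
    obtain ⟨T, hTS, hTne, hTn, hTt⟩ := hcase
    have hTlt : T.card < n := by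
      rw [← hSn]
      exact Finset.card_lt_card (Finset.ssubset_iff_subset_ne.mpr ⟨hTS, hTne⟩)
    obtain ⟨o1, ho1⟩ := ih T.card hTlt T rfl N hTt (fun X hX => hT X (hX.trans hTS))
    set N' : A → Submodule K U := fun w => N w ⊔ span K (v w '' (T : Set E)) with hN'
    have hN'0 : R v N' ∅ = R v N T := by
      rw [hN', R_contract, Finset.union_empty]
    have hcard : (S \ T).card + T.card = S.card := Finset.card_sdiff_add_card_eq_card hTS
    have hTpos : 0 < T.card := Finset.card_pos.mpr hTn
    have h1 : R v N' (S \ T) = R v N' ∅ + (S \ T).card := by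
      rw [hN', R_contract, R_contract, Finset.union_empty, Finset.union_sdiff_of_subset hTS, hS,
        hTt]
      omega
    have h2 : ∀ X ⊆ S \ T, R v N' ∅ + X.card ≤ R v N' X := by
      intro X hX
      rw [hN', R_contract, R_contract, Finset.union_empty, hTt]
      have hd : Disjoint T X := by
        rw [Finset.disjoint_left]
        intro a ha hb
        exact (Finset.mem_sdiff.mp (hX hb)).2 ha
      have h3 := hT (T ∪ X) (Finset.union_subset hTS (hX.trans Finset.sdiff_subset))
      rw [Finset.card_union_of_disjoint hd] at h3
      omega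
    obtain ⟨o2, ho2⟩ := ih (S \ T).card (by omega) (S \ T) rfl N' h1 h2
    refine ⟨fun e => if e ∈ T then o1 e else o2 e, ?_⟩
    intro w
    have hle1 : N w ⊔ span K (v w '' {e' | e' ∈ T ∧ o1 e' = w}) ≤
        N w ⊔ span K (v w '' {e' | e' ∈ S ∧ (if e' ∈ T then o1 e' else o2 e') = w}) := by
      apply sup_le_sup_left
      apply span_mono
      apply Set.image_mono
      rintro e ⟨he, hoe⟩
      exact ⟨hTS he, by simp [he, hoe]⟩
    have hle2 : N' w ≤
        N w ⊔ span K (v w '' {e' | e' ∈ S ∧ (if e' ∈ T then o1 e' else o2 e') = w}) := by
      rw [hN']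
      apply sup_le le_sup_left
      rw [span_le]
      rintro _ ⟨e, he, rfl⟩
      exact hle1 (ho1 w e he)
    intro e he
    by_cases heT : e ∈ T
    · exact hle1 (ho1 w e heT)
    · have h3 := ho2 w e (Finset.mem_sdiff.mpr ⟨he, heT⟩)
      refine (sup_le hle2 ?_ : N' w ⊔ span K (v w '' {e' | e' ∈ S \ T ∧ o2 e' = w}) ≤ _) h3
      refine le_trans ?_ le_sup_right
      apply span_mono
      apply Set.image_mono
      rintro e ⟨he, hoe⟩
      rw [Finset.mem_sdiff] at he
      exact ⟨he.1, by simp [he.2, hoe]⟩
  · push Not at hcase
    by_cases hSe : S.Nonempty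
    swap
    · rw [Finset.not_nonempty_iff_eq_empty] at hSe
      subst hSe
      exact ⟨fun _ => Classical.arbitrary A, by simp⟩
    obtain ⟨y, hy⟩ := hSe
    have hw : ∃ w0, v w0 y ∉ N w0 := by
      by_contra hcon
      push Not at hcon
      have h1 : R v N {y} = R v N ∅ := by
        unfold R
        apply Finset.sum_congr rfl
        intro w _
        have : N w ⊔ span K (v w '' (({y} : Finset E) : Set E)) = N w := by
          simp [hcon w]
        rw [this, sup_span_empty]
      have h2 := hT {y} (by simpa using hy)
      simp only [Finset.card_singleton] at h2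
      omega
    obtain ⟨w0, hw0⟩ := hw
    set N' : A → Submodule K U := Function.update N w0 (N w0 ⊔ span K {v w0 y}) with hN'
    have hN'w0 : N' w0 = N w0 ⊔ span K {v w0 y} := by simp [hN']
    have hN'w : ∀ w, w ≠ w0 → N' w = N w := by
      intro w hw
      simp [hN', hw]
    have hNN' : ∀ w, N w ≤ N' w := by
      intro w
      by_cases h : w = w0
      · subst h; rw [hN'w0]; exact le_sup_left
      · rw [hN'w w h]
    have hR0 : R v N' ∅ = R v N ∅ + 1 := by
      have e1 : ∀ M : A → Submodule K U, R v M ∅ = ∑ w, finrank K ↥(M w) := by
        intro M; unfold R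
        apply Finset.sum_congr rfl
        intro w _
        rw [sup_span_empty]
      rw [e1, e1, ← Finset.add_sum_erase _ _ (Finset.mem_univ w0),
        ← Finset.add_sum_erase _ (fun w => finrank K ↥(N w)) (Finset.mem_univ w0)]
      have e2 : ∑ x ∈ Finset.univ.erase w0, finrank K ↥(N' x) =
          ∑ x ∈ Finset.univ.erase w0, finrank K ↥(N x) := by
        apply Finset.sum_congr rfl
        intro w hw
        rw [hN'w w (Finset.ne_of_mem_erase hw)]
      rw [e2, hN'w0]
      have e3 : finrank K ↥(N w0 ⊔ span K {v w0 y}) = finrank K ↥(N w0) + 1 := by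
        apply le_antisymm
        · refine (Submodule.finrank_add_le_finrank_add_finrank _ _).trans ?_
          have := finrank_span_le_card (R := K) ({v w0 y} : Set U)
          simp at this
          omega
        · have : N w0 < N w0 ⊔ span K {v w0 y} := by
            rw [left_lt_sup]
            intro h
            exact hw0 (h (mem_span_singleton_self _))
          exact Submodule.finrank_lt_finrank_of_lt this
      omega
    have hcardS : (S.erase y).card + 1 = S.card := Finset.card_erase_add_one hy
    have hlow : ∀ X ⊆ S.erase y, R v N' ∅ + X.card ≤ R v N' X := by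
      intro X hX
      by_cases hXe : X.Nonempty
      · have hXS : X ⊆ S := hX.trans (Finset.erase_subset _ _)
        have hXne : X ≠ S := by
          intro h
          have := hX (h ▸ hy)
          simp at this
        have h1 := hcase X hXS hXne hXe
        have h2 := hT X hXS
        have h3 := R_mono_sub v X hNN'
        omega
      · rw [Finset.not_nonempty_iff_eq_empty] at hXe
        subst hXe
        simp
    have hup : R v N' (S.erase y) ≤ R v N S := by
      unfold R
      apply Finset.sum_le_sum
      intro w _
      apply Submodule.finrank_mono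
      by_cases h : w = w0
      · subst h
        rw [hN'w0]
        apply sup_le
        · apply sup_le le_sup_left
          refine le_trans ?_ le_sup_right
          apply span_mono
          rintro _ rfl
          exact ⟨y, hy, rfl⟩
        · refine le_trans ?_ le_sup_right
          apply span_mono
          apply Set.image_mono
          exact_mod_cast Finset.erase_subset _ _
      · rw [hN'w w h]
        apply sup_le_sup_left
        apply span_mono
        apply Set.image_mono
        exact_mod_cast Finset.erase_subset _ _
    have heq : R v N' (S.erase y) = R v N' ∅ + (S.erase y).card := by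
      have := hlow (S.erase y) (Finset.Subset.refl _)
      omega
    obtain ⟨o1, ho1⟩ := ih (S.erase y).card (by omega) (S.erase y) rfl N' heq hlow
    -- equality of spans for `w ≠ w0`
    have hspan : ∀ w, w ≠ w0 → v w y ∈ N w ⊔ span K (v w '' ((S.erase y : Finset E) : Set E)) := by
      intro w hw
      have hsum : ∑ w, finrank K ↥(N' w ⊔ span K (v w '' ((S.erase y : Finset E) : Set E))) =
          ∑ w, finrank K ↥(N w ⊔ span K (v w '' (S : Set E))) := by
        change R v N' (S.erase y) = R v N S
        omega
      have hsub : ∀ w, N' w ⊔ span K (v w '' ((S.erase y : Finset E) : Set E)) ≤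
          N w ⊔ span K (v w '' (S : Set E)) := by
        intro w
        by_cases h : w = w0
        · subst h
          rw [hN'w0]
          apply sup_le
          · apply sup_le le_sup_left
            refine le_trans ?_ le_sup_right
            apply span_mono
            rintro _ rfl
            exact ⟨y, hy, rfl⟩
          · refine le_trans ?_ le_sup_right
            apply span_mono
            apply Set.image_mono
            exact_mod_cast Finset.erase_subset _ _
        · rw [hN'w w h]
          apply sup_le_sup_left
          apply span_mono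
          apply Set.image_mono
          exact_mod_cast Finset.erase_subset _ _
      have hterm := (Finset.sum_eq_sum_iff_of_le (s := Finset.univ)
        (fun w _ => Submodule.finrank_mono (hsub w))).mp hsum w (Finset.mem_univ w)
      have hEq := Submodule.eq_of_le_of_finrank_eq (hsub w) hterm
      rw [hN'w w hw] at hEq
      rw [hEq]
      apply Submodule.mem_sup_right
      apply subset_span
      exact ⟨y, hy, rfl⟩
    refine ⟨Function.update o1 y w0, ?_⟩
    have hyS : ∀ w, w ≠ w0 → span K (v w '' {e' | e' ∈ S.erase y ∧ o1 e' = w}) ≤
        span K (v w '' {e' | e' ∈ S ∧ Function.update o1 y w0 e' = w}) := by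
      intro w hw
      apply span_mono
      apply Set.image_mono
      rintro e ⟨he, hoe⟩
      rw [Finset.mem_erase] at he
      exact ⟨he.2, by simp [he.1, hoe]⟩
    have hyS0 : span K (v w0 '' {e' | e' ∈ S.erase y ∧ o1 e' = w0}) ≤
        span K (v w0 '' {e' | e' ∈ S ∧ Function.update o1 y w0 e' = w0}) := by
      apply span_mono
      apply Set.image_mono
      rintro e ⟨he, hoe⟩
      rw [Finset.mem_erase] at he
      exact ⟨he.2, by simp [he.1, hoe]⟩
    intro w e he
    by_cases hw : w = w0
    · subst hw
      have hyin : v w y ∈ span K (v w '' {e' | e' ∈ S ∧ Function.update o1 y w e' = w}) := by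
        apply subset_span
        exact ⟨y, ⟨hy, by simp⟩, rfl⟩
      by_cases hey : e = y
      · subst hey
        exact Submodule.mem_sup_right hyin
      · have h1 := ho1 w e (Finset.mem_erase.mpr ⟨hey, he⟩)
        rw [hN'w0] at h1
        refine (sup_le (sup_le le_sup_left ?_) ?_ : N w ⊔ span K {v w y} ⊔ _ ≤ _) h1
        · rw [span_le]
          rintro _ rfl
          exact Submodule.mem_sup_right hyin
        · exact hyS0.trans le_sup_right
    · have key : ∀ e ∈ S.erase y,
          v w e ∈ N w ⊔ span K (v w '' {e' | e' ∈ S ∧ Function.update o1 y w0 e' = w}) := by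
        intro e he
        have h1 := ho1 w e he
        rw [hN'w w hw] at h1
        exact (sup_le_sup_left (hyS w hw) _) h1
      by_cases hey : e = y
      · subst hey
        have h2 := hspan w hw
        refine (sup_le le_sup_left ?_ : N w ⊔ _ ≤ _) h2
        rw [span_le]
        rintro _ ⟨e', he', rfl⟩
        exact key e' (by exact_mod_cast he')
      · exact key e (Finset.mem_erase.mpr ⟨hey, he⟩)

/-- Self-spanned sets exist when the total rank is at most the number of labels. -/
theorem exists_selfspan (K : Type*) {U E A : Type*} [Field K] [AddCommGroup U] [Module K U]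
    [FiniteDimensional K U] [Fintype A] [DecidableEq A] [DecidableEq E] [Nonempty A]
    (v : A → E → U) (S : Finset E) (hS : S.Nonempty)
    (hρ : ∑ w, finrank K ↥(span K (v w '' (S : Set E))) ≤ S.card) :
    ∃ L ⊆ S, L.Nonempty ∧ ∃ o : E → A, ∀ w, ∀ e ∈ L,
      v w e ∈ span K (v w '' {e' | e' ∈ L ∧ o e' = w}) := by
  classical
  have hbot : ∀ T : Finset E, R v (fun _ => (⊥ : Submodule K U)) T =
      ∑ w, finrank K ↥(span K (v w '' (T : Set E))) := by
    intro T; unfold R
    apply Finset.sum_congr rfl
    intro w _
    rw [bot_sup_eq]
  have h0 : R v (fun _ => (⊥ : Submodule K U)) ∅ = 0 := by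
    rw [hbot]; simp
  -- minimal nonempty subset with `ρ ≤ card`
  obtain ⟨L, hL, hmin⟩ := Finset.exists_min_image
    (S.powerset.filter (fun T => T.Nonempty ∧ R v (fun _ => (⊥ : Submodule K U)) T ≤ T.card))
    Finset.card ⟨S, by simp [hS, hbot, hρ]⟩
  simp only [Finset.mem_filter, Finset.mem_powerset] at hL hmin
  obtain ⟨hLS, hLn, hLρ⟩ := hL
  refine ⟨L, hLS, hLn, ?_⟩
  have hprop : ∀ T ⊆ L, T ≠ L → T.Nonempty →
      T.card < R v (fun _ => (⊥ : Submodule K U)) T := by
    intro T hTL hTne hTn
    by_contra hcon
    push Not at hcon
    have h1 := hmin T ⟨hTL.trans hLS, hTn, hcon⟩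
    have h2 := Finset.card_lt_card (Finset.ssubset_iff_subset_ne.mpr ⟨hTL, hTne⟩)
    omega
  rcases hLρ.lt_or_eq with hlt | heq
  · obtain ⟨y, hy⟩ := hLn
    have hLy : L.erase y = ∅ := by
      by_contra hcon
      have hne : (L.erase y).Nonempty := Finset.nonempty_iff_ne_empty.mpr hcon
      have h1 := hprop (L.erase y) (Finset.erase_subset _ _) (by
        intro h
        have := Finset.notMem_erase y L
        rw [h] at this
        exact this hy) hne
      have h2 := R_mono_set v (fun _ => (⊥ : Submodule K U)) (Finset.erase_subset y L)
      have h3 := Finset.card_erase_add_one hy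
      omega
    have hc : L.card = 1 := by
      have h3 := Finset.card_erase_add_one hy
      rw [hLy] at h3
      simpa using h3.symm
    have hR0 : R v (fun _ => (⊥ : Submodule K U)) L = 0 := by omega
    rw [hbot, Finset.sum_eq_zero_iff] at hR0
    refine ⟨fun _ => Classical.arbitrary A, ?_⟩
    intro w e he
    have h1 := hR0 w (Finset.mem_univ w)
    rw [Submodule.finrank_eq_zero] at h1
    have h2 : v w e ∈ span K (v w '' (L : Set E)) := subset_span ⟨e, he, rfl⟩
    rw [h1, Submodule.mem_bot] at h2
    rw [h2]
    exact Submodule.zero_mem _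
  · obtain ⟨o, ho⟩ := lemmaQ v L.card L rfl (fun _ => (⊥ : Submodule K U)) (by
      rw [h0, heq, zero_add]) (by
      intro T hTL
      rw [h0, zero_add]
      by_cases hTne : T = L
      · rw [hTne, heq]
      · by_cases hTn : T.Nonempty
        · exact (hprop T hTL hTne hTn).le
        · rw [Finset.not_nonempty_iff_eq_empty] at hTn
          subst hTn; simp)
    refine ⟨o, ?_⟩
    intro w e he
    simpa using ho w e he

end Pool.Agent.W_MP_a02419_co
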