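import Mathlib
import Pool.Agent.W_MP_a02419_co.LinAlg

/-!
# Rooted minors from coloured (Kempe type) connections for bipartite `H`
-/

set_option linter.unusedSectionVars false

namespace Pool.Agent.W_MP_a02419_co

open Relation

universe u v

/-- one step along an edge of `G` inside `S` -/
def Step {V : Type u} (G : SimpleGraph V) (S : Set V) (a b : V) : Prop :=
  a ∈ S ∧ b ∈ S ∧ G.Adj a b

/-- connection inside `S` -/
def Conn {V : Type u} (G : SimpleGraph V) (S : Set V) : V → V → Prop :=
  ReflTransGen (Step G S)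

/-- `S` is connected -/
def ConnSet {V : Type u} (G : SimpleGraph V) (S : Set V) : Prop :=
  ∀ x ∈ S, ∀ y ∈ S, Conn G S x y

/-- rooted minor, in terms of vertex sets -/
def RM {V : Type u} {W : Type v} (G : SimpleGraph V) (ι : W → V) (H : SimpleGraph W) : Prop :=
  ∃ C : W → Set V, (∀ w, ι w ∈ C w) ∧ (∀ w, ConnSet G (C w)) ∧
    (∀ w w', w ≠ w' → Disjoint (C w) (C w')) ∧
    ∀ w w', H.Adj w w' → ∃ x ∈ C w, ∃ y ∈ C w', G.Adj x y

theorem Conn.symm {V : Type u} {G : SimpleGraph V} {S : Set V} {x y : V} (h : Conn G S x y) :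
    Conn G S y x := by
  unfold Conn at *
  induction h with
  | refl => exact ReflTransGen.refl
  | tail _ hbc ih => exact ReflTransGen.head ⟨hbc.2.1, hbc.1, hbc.2.2.symm⟩ ih

theorem Conn.mono {V : Type u} {G : SimpleGraph V} {S S' : Set V} (hS : S ⊆ S') {x y : V}
    (h : Conn G S x y) : Conn G S' x y := by
  unfold Conn at *
  induction h with
  | refl => exact ReflTransGen.refl
  | tail _ hbc ih => exact ReflTransGen.tail ih ⟨hS hbc.1, hS hbc.2.1, hbc.2.2⟩

/-- lifting rooted minors along branch sets -/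
theorem RM.lift {V V' : Type u} {W : Type v} {G : SimpleGraph V} {G' : SimpleGraph V'}
    {ι : W → V} {ι' : W → V'} {H : SimpleGraph W} (B : V' → Set V)
    (hroot : ∀ w, ι w ∈ B (ι' w)) (hconn : ∀ a, ConnSet G (B a))
    (hdisj : ∀ a b, a ≠ b → Disjoint (B a) (B b))
    (hadj : ∀ a b, G'.Adj a b → ∃ x ∈ B a, ∃ y ∈ B b, G.Adj x y) (h : RM G' ι' H) :
    RM G ι H := by
  obtain ⟨C, hC1, hC2, hC3, hC4⟩ := h
  refine ⟨fun w => {x | ∃ a ∈ C w, x ∈ B a}, ?_, ?_, ?_, ?_⟩
  · intro w
    exact ⟨ι' w, hC1 w, hroot w⟩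
  · rintro w x ⟨a, ha, hxa⟩ y ⟨b, hb, hyb⟩
    have hsub : ∀ a ∈ C w, B a ⊆ {x | ∃ a ∈ C w, x ∈ B a} := fun a ha x hx => ⟨a, ha, hx⟩
    have h1 : Conn G' (C w) a b := hC2 w a ha b hb
    have key : ∀ b, Conn G' (C w) a b → ∀ y ∈ B b,
        Conn G {x | ∃ a ∈ C w, x ∈ B a} x y := by
      intro b hab
      unfold Conn at hab
      induction hab with
      | refl => intro y hy; exact (hconn a x hxa y hy).mono (hsub a ha)
      | tail _ hbc ih =>
        intro y hy
        obtain ⟨hb1, hc1, hbc'⟩ := hbc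
        obtain ⟨p, hp, q, hq, hpq⟩ := hadj _ _ hbc'
        have h3 : Conn G {x | ∃ a ∈ C w, x ∈ B a} p q :=
          ReflTransGen.single ⟨⟨_, hb1, hp⟩, ⟨_, hc1, hq⟩, hpq⟩
        exact ((ih p hp).trans h3).trans ((hconn _ q hq y hy).mono (hsub _ hc1))
    exact key b h1 y hyb
  · intro w w' hww'
    rw [Set.disjoint_left]
    rintro x ⟨a, ha, hxa⟩ ⟨b, hb, hxb⟩
    by_cases hab : a = b
    · subst hab
      exact Set.disjoint_left.mp (hC3 w w' hww') ha hb
    · exact Set.disjoint_left.mp (hdisj a b hab) hxa hxb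
  · intro w w' hww'
    obtain ⟨a, ha, b, hb, hab⟩ := hC4 w w' hww'
    obtain ⟨x, hx, y, hy, hxy⟩ := hadj a b hab
    exact ⟨x, ⟨a, ha, hx⟩, y, ⟨b, hb, hy⟩, hxy⟩

/-- coloured connection hypothesis -/
def Good {V : Type u} {W : Type v} (G : SimpleGraph V) (c : V → W) (ι : W → V)
    (H : SimpleGraph W) : Prop :=
  (∀ w, c (ι w) = w) ∧ ∀ a b, H.Adj a b → Conn G {x | c x = a ∨ c x = b} (ι a) (ι b)

/-- The reduction step: pass to representatives `T` with branch sets `B`. -/
theorem reduce {V : Type u} {W : Type v} [Finite V] {G : SimpleGraph V} {c : V → W} {ι : W → V}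
    {H : SimpleGraph W} (hc : ∀ w, c (ι w) = w)
    (IH : ∀ (V' : Type u) [Finite V'] (G' : SimpleGraph V') (c' : V' → W) (ι' : W → V'),
      Nat.card V' < Nat.card V → Good G' c' ι' H → RM G' ι' H)
    (T : Set V) (hT : T ≠ Set.univ) (B : V → Set V) (hι : ∀ w, ι w ∈ T)
    (hBT : ∀ z ∈ T, z ∈ B z) (hdisj : ∀ z ∈ T, ∀ z' ∈ T, z ≠ z' → Disjoint (B z) (B z'))
    (hconn : ∀ z ∈ T, ConnSet G (B z))
    (hH : ∀ a b, H.Adj a b → ReflTransGen (fun x y => x ∈ T ∧ y ∈ T ∧ (c x = a ∨ c x = b) ∧
      (c y = a ∨ c y = b) ∧ ∃ p ∈ B x, ∃ q ∈ B y, G.Adj p q) (ι a) (ι b)) :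
    RM G ι H := by
  classical
  let G' : SimpleGraph T :=
    { Adj := fun x y => x ≠ y ∧ ∃ p ∈ B x, ∃ q ∈ B y, G.Adj p q
      symm := ⟨by
        rintro x y ⟨hxy, p, hp, q, hq, hpq⟩
        exact ⟨hxy.symm, q, hq, p, hp, hpq.symm⟩⟩
      loopless := ⟨by
        rintro x ⟨hx, _⟩
        exact hx rfl⟩ }
  have hcard : Nat.card T < Nat.card V := by
    have : T ⊂ Set.univ := Set.ssubset_univ_iff.mpr hT
    have h1 := Set.ncard_lt_ncard this
    rw [Set.ncard_univ] at h1
    exact h1
  refine RM.lift (G' := G') (ι' := fun w => ⟨ι w, hι w⟩) (fun z => B z)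
    (fun w => hBT _ (hι w)) (fun a => hconn a a.2) ?_ ?_ ?_
  · intro a b hab
    exact hdisj a a.2 b b.2 (fun h => hab (Subtype.ext h))
  · rintro a b ⟨_, h⟩
    exact h
  · apply IH T G' (fun z => c z) (fun w => ⟨ι w, hι w⟩) hcard
    refine ⟨fun w => hc w, ?_⟩
    intro a b hab
    have key : ∀ z, ReflTransGen (fun x y => x ∈ T ∧ y ∈ T ∧ (c x = a ∨ c x = b) ∧
      (c y = a ∨ c y = b) ∧ ∃ p ∈ B x, ∃ q ∈ B y, G.Adj p q) (ι a) z → ∃ hz : z ∈ T,
        Conn G' {x | c x = a ∨ c x = b} ⟨ι a, hι a⟩ ⟨z, hz⟩ := by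
      intro z hz
      induction hz with
      | refl => exact ⟨hι a, ReflTransGen.refl⟩
      | @tail y z _ hyz ih =>
        obtain ⟨hyT, hzT, hcy, hcz, p, hp, q, hq, hpq⟩ := hyz
        obtain ⟨hyT', ih⟩ := ih
        refine ⟨hzT, ?_⟩
        by_cases hyz' : y = z
        · subst hyz'
          exact ih
        · refine ReflTransGen.tail ih ⟨hcy, hcz, ?_, p, hp, q, hq, hpq⟩
          intro h
          exact hyz' (congrArg Subtype.val h)
    obtain ⟨_, h⟩ := key (ι b) (hH a b hab)
    exact h

/-- Step 1: contract an edge inside a colour class. -/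
theorem contract_mono {V : Type u} {W : Type v} [Finite V] {G : SimpleGraph V} {c : V → W}
    {ι : W → V} {H : SimpleGraph W} (hG : Good G c ι H)
    (IH : ∀ (V' : Type u) [Finite V'] (G' : SimpleGraph V') (c' : V' → W) (ι' : W → V'),
      Nat.card V' < Nat.card V → Good G' c' ι' H → RM G' ι' H)
    {x y : V} (hxy : G.Adj x y) (hcxy : c x = c y) (hx : ∀ w, ι w ≠ x) : RM G ι H := by
  classical
  have hne : x ≠ y := hxy.ne
  refine reduce (c := c) hG.1 IH {z | z ≠ x} ?_ (fun z => if z = y then {x, y} else {z}) hx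
    ?_ ?_ ?_ ?_
  · intro h
    have : x ∈ ({z | z ≠ x} : Set V) := h ▸ Set.mem_univ x
    exact this rfl
  · intro z _
    by_cases h : z = y <;> simp [h]
  · intro z hz z' hz' hzz'
    rw [Set.disjoint_left]
    intro p hp hp'
    simp only [Set.mem_ofPred_eq] at hz hz'
    by_cases h : z = y
    · have h' : z' ≠ y := fun h' => hzz' (h.trans h'.symm)
      simp only [h, if_true, h', if_false, Set.mem_insert_iff, Set.mem_singleton_iff] at hp hp'
      subst hp'
      rcases hp with hp | hp
      · exact hz' hp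
      · exact h' hp
    · by_cases h' : z' = y
      · simp only [h, if_false, h', if_true, Set.mem_insert_iff, Set.mem_singleton_iff] at hp hp'
        subst hp
        rcases hp' with hp | hp
        · exact hz hp
        · exact h hp
      · simp only [h, if_false, h', Set.mem_singleton_iff] at hp hp'
        exact hzz' (hp.symm.trans hp')
  · intro z _ p hp q hq
    by_cases h : z = y
    · simp only [h, if_true] at hp hq ⊢
      have hxy' : Conn G {x, y} x y :=
        ReflTransGen.single ⟨Set.mem_insert _ _, Set.mem_insert_of_mem _ rfl, hxy⟩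
      rcases hp with rfl | hp <;> rcases hq with rfl | hq
      · exact ReflTransGen.refl
      · rw [Set.mem_singleton_iff] at hq; subst hq; exact hxy'
      · rw [Set.mem_singleton_iff] at hp; subst hp; exact hxy'.symm
      · rw [Set.mem_singleton_iff] at hp hq; subst hp; subst hq; exact ReflTransGen.refl
    · simp only [h, if_false, Set.mem_singleton_iff] at hp hq ⊢
      subst hp; subst hq; exact ReflTransGen.refl
  · intro a b hab
    have h1 := hG.2 a b hab
    have hmem : ∀ p : V, p ∈ (if (if p = x then y else p) = y then ({x, y} : Set V)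
        else {if p = x then y else p}) := by
      intro p
      by_cases hp : p = x
      · simp [hp]
      · by_cases hp' : p = y <;> simp [hp, hp']
    have key : ∀ z, Conn G {x | c x = a ∨ c x = b} (ι a) z →
        ReflTransGen (fun x_1 y_1 => x_1 ∈ {z | z ≠ x} ∧ y_1 ∈ {z | z ≠ x} ∧
          (c x_1 = a ∨ c x_1 = b) ∧ (c y_1 = a ∨ c y_1 = b) ∧
          ∃ p ∈ (if x_1 = y then ({x, y} : Set V) else {x_1}),
            ∃ q ∈ (if y_1 = y then ({x, y} : Set V) else {y_1}), G.Adj p q) (ι a)
          (if z = x then y else z) := by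
      intro z hz
      unfold Conn at hz
      induction hz with
      | refl =>
        rw [if_neg (hx a)]
      | @tail s t _ hst ih =>
        refine ReflTransGen.tail ih ⟨?_, ?_, ?_, ?_, s, hmem s, t, hmem t, hst.2.2⟩
        · by_cases h : s = x
          · simp [h, hne.symm]
          · simp [h]
        · by_cases h : t = x
          · simp [h, hne.symm]
          · simp [h]
        · have := hst.1
          simp only [Set.mem_ofPred_eq] at this
          by_cases h : s = x
          · subst h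
            simpa [hcxy] using this
          · simpa [h] using this
        · have := hst.2.1
          simp only [Set.mem_ofPred_eq] at this
          by_cases h : t = x
          · subst h
            simpa [hcxy] using this
          · simpa [h] using this
    have h2 := key (ι b) h1
    rwa [if_neg (hx b)] at h2

end Pool.Agent.W_MP_a02419_co
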