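import Mathlib
import Pool.Agent.W_MP_a02419_co.Graph

/-!
# Extracting alternating path data
-/

set_option linter.unusedSectionVars false

namespace Pool.Agent.W_MP_a02419_co

open Relation

universe u v

/-- Alternating path data between `ι u` and `ι w` when `c` is a proper colouring. -/
theorem pathdata {V : Type u} {W : Type v} {G : SimpleGraph V} {c : V → W} {ι : W → V}
    {H : SimpleGraph W} (hG : Good G c ι H) (hproper : ∀ x y, G.Adj x y → c x ≠ c y) (u w : W) :
    ∃ (on : V → Prop) (a b : V → V),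
      (∀ y, on y → H.Adj u w ∧ c y = u ∧ (∀ z, ι z ≠ y) ∧ G.Adj y (a y) ∧ G.Adj y (b y) ∧
        c (a y) = w ∧ c (b y) = w) ∧
      (H.Adj u w → ∃ x1, c x1 = w ∧ G.Adj (ι u) x1 ∧
        ReflTransGen (fun x x' => ∃ y, on y ∧ a y = x ∧ b y = x') x1 (ι w)) := by
  classical
  by_cases hadj : H.Adj u w
  swap
  · exact ⟨fun _ => False, id, id, fun _ h => h.elim, fun h => (hadj h).elim⟩
  have huw : u ≠ w := hadj.ne
  let GS : SimpleGraph V :=
    { Adj := Step G {x | c x = u ∨ c x = w}
      symm := ⟨fun x y h => ⟨h.2.1, h.1, h.2.2.symm⟩⟩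
      loopless := ⟨fun x h => h.2.2.ne rfl⟩ }
  have hreach : GS.Reachable (ι u) (ι w) := by
    rw [SimpleGraph.reachable_iff_reflTransGen]
    exact hG.2 u w hadj
  obtain ⟨p, hp⟩ := hreach.exists_isPath
  have hadjp : ∀ i, i < p.length → GS.Adj (p.getVert i) (p.getVert (i + 1)) :=
    fun i hi => p.adj_getVert_succ hi
  have hinj : ∀ i j, i ≤ p.length → j ≤ p.length → p.getVert i = p.getVert j → i = j := by
    intro i j hi hj h
    exact hp.getVert_injOn hi hj h
  have h0 : p.getVert 0 = ι u := p.getVert_zero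
  have hl : p.getVert p.length = ι w := p.getVert_length
  have hcol : ∀ i, (2 * i ≤ p.length → c (p.getVert (2 * i)) = u) ∧
      (2 * i + 1 ≤ p.length → c (p.getVert (2 * i + 1)) = w) := by
    intro i
    induction i with
    | zero =>
      constructor
      · intro _; rw [Nat.mul_zero, h0, hG.1]
      · intro hi
        have h1 := hadjp 0 (by omega)
        have h2 : c (p.getVert (0 + 1)) = u ∨ c (p.getVert (0 + 1)) = w := h1.2.1
        have h3 := hproper _ _ h1.2.2
        rw [h0, hG.1] at h3
        rcases h2 with h2 | h2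
        · exact (h3 h2.symm).elim
        · simpa using h2
    | succ i ih =>
      have hev : 2 * (i + 1) ≤ p.length → c (p.getVert (2 * (i + 1))) = u := by
        intro hi
        have h1 := hadjp (2 * i + 1) (by omega)
        have h2 : c (p.getVert (2 * i + 1 + 1)) = u ∨ c (p.getVert (2 * i + 1 + 1)) = w := h1.2.1
        have h3 := hproper _ _ h1.2.2
        rw [ih.2 (by omega)] at h3
        rcases h2 with h2 | h2
        · exact h2
        · exact (h3 h2.symm).elim
      refine ⟨hev, ?_⟩
      intro hi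
      have h1 := hadjp (2 * (i + 1)) (by omega)
      have h2 : c (p.getVert (2 * (i + 1) + 1)) = u ∨ c (p.getVert (2 * (i + 1) + 1)) = w :=
        h1.2.1
      have h3 := hproper _ _ h1.2.2
      rw [hev (by omega)] at h3
      rcases h2 with h2 | h2
      · exact (h3 h2.symm).elim
      · exact h2
  -- the length is odd
  obtain ⟨n, hn⟩ : ∃ n, p.length = 2 * n + 1 := by
    rcases Nat.even_or_odd' p.length with ⟨n, hn | hn⟩
    · exfalso
      have h1 := (hcol n).1 (by omega)
      rw [← hn, hl, hG.1] at h1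
      exact huw h1.symm
    · exact ⟨n, hn⟩
  let idx : V → ℕ := fun y => if h : ∃ i, 1 ≤ i ∧ i ≤ n ∧ p.getVert (2 * i) = y then h.choose
    else 0
  have hidx : ∀ i, 1 ≤ i → i ≤ n → idx (p.getVert (2 * i)) = i := by
    intro i hi1 hi2
    have h : ∃ j, 1 ≤ j ∧ j ≤ n ∧ p.getVert (2 * j) = p.getVert (2 * i) := ⟨i, hi1, hi2, rfl⟩
    have hsp := h.choose_spec
    have h1 : idx (p.getVert (2 * i)) = h.choose := by simp only [idx]; rw [dif_pos h]
    rw [h1]
    have h2 := hinj (2 * h.choose) (2 * i) (by omega) (by omega) hsp.2.2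
    omega
  refine ⟨fun y => ∃ i, 1 ≤ i ∧ i ≤ n ∧ p.getVert (2 * i) = y,
    fun y => p.getVert (2 * idx y - 1), fun y => p.getVert (2 * idx y + 1), ?_, ?_⟩
  · rintro y ⟨i, hi1, hi2, rfl⟩
    have hc1 := (hcol i).1 (by omega)
    dsimp only
    rw [hidx i hi1 hi2]
    obtain ⟨j, rfl⟩ : ∃ j, i = j + 1 := ⟨i - 1, by omega⟩
    have e1 : 2 * (j + 1) - 1 = 2 * j + 1 := by omega
    rw [e1]
    have a1 := hadjp (2 * j + 1) (by omega)
    have a2 := hadjp (2 * (j + 1)) (by omega)
    refine ⟨hadj, hc1, ?_, ?_, a2.2.2, (hcol j).2 (by omega), (hcol (j + 1)).2 (by omega)⟩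
    · intro z hz
      have hzu : z = u := by
        rw [← hc1, ← hz, hG.1]
      subst hzu
      have := hinj 0 (2 * (j + 1)) (by omega) (by omega) (h0.trans hz)
      omega
    · exact a1.2.2.symm
  · intro _
    refine ⟨p.getVert 1, ?_, ?_, ?_⟩
    · simpa using (hcol 0).2 (by omega)
    · have := (hadjp 0 (by omega)).2.2
      rw [h0] at this
      simpa using this
    · have key : ∀ i, i ≤ n → ReflTransGen (fun x x' => ∃ y,
          (∃ i, 1 ≤ i ∧ i ≤ n ∧ p.getVert (2 * i) = y) ∧ p.getVert (2 * idx y - 1) = x ∧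
            p.getVert (2 * idx y + 1) = x') (p.getVert 1) (p.getVert (2 * i + 1)) := by
        intro i
        induction i with
        | zero => intro _; simpa using ReflTransGen.refl
        | succ i ih =>
          intro hi
          refine ReflTransGen.tail (ih (by omega)) ⟨p.getVert (2 * (i + 1)),
            ⟨i + 1, by omega, hi, rfl⟩, ?_, ?_⟩
          · rw [hidx (i + 1) (by omega) hi]
            congr 1
          · rw [hidx (i + 1) (by omega) hi]
      have := key n le_rfl
      rw [← hn, hl] at this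
      exact this

end Pool.Agent.W_MP_a02419_co
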