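import Mathlib
import Pool.Agent.W_MP_a02419_co.Path

/-!
# The main reduction for bipartite `H`
-/

set_option linter.unusedSectionVars false

namespace Pool.Agent.W_MP_a02419_co

open Relation Submodule Module

universe u v

/-- Step 2: the label contraction. -/
theorem contract_labels {V : Type u} {W : Type v} [Finite V] {G : SimpleGraph V} {c : V → W}
    {ι : W → V} {H : SimpleGraph W} (hG : Good G c ι H)
    (hproper : ∀ x y, G.Adj x y → c x ≠ c y) (side : W → Prop)
    (hside : ∀ a b, H.Adj a b → (side a ↔ ¬ side b))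
    (hcard : {x | (∀ z, ι z ≠ x) ∧ ¬ side (c x)}.ncard ≤ {x | (∀ z, ι z ≠ x) ∧ side (c x)}.ncard)
    (IH : ∀ (V' : Type u) [Finite V'] (G' : SimpleGraph V') (c' : V' → W) (ι' : W → V'),
      Nat.card V' < Nat.card V → Good G' c' ι' H → RM G' ι' H) : RM G ι H := by
  classical
  have hfinW : Finite W := Finite.of_injective ι (fun a b h => by
    rw [← hG.1 a, h, hG.1 b])
  have := Fintype.ofFinite V
  have := Fintype.ofFinite W
  choose on a b hon hwalk using pathdata hG hproper
  set SA : Finset V := Finset.univ.filter (fun x => (∀ z, ι z ≠ x) ∧ ¬ side (c x)) with hSA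
  set SB : Finset V := Finset.univ.filter (fun x => (∀ z, ι z ≠ x) ∧ side (c x)) with hSB
  have hcard' : SA.card ≤ SB.card := by
    have e1 : {x | (∀ z, ι z ≠ x) ∧ ¬ side (c x)} = (SA : Set V) := by
      ext x; simp [hSA]
    have e2 : {x | (∀ z, ι z ≠ x) ∧ side (c x)} = (SB : Set V) := by
      ext x; simp [hSB]
    rw [e1, e2, Set.ncard_coe_finset, Set.ncard_coe_finset] at hcard
    exact hcard
  by_cases hSBe : SB.Nonempty
  swap
  · -- all vertices are roots
    rw [Finset.not_nonempty_iff_eq_empty] at hSBe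
    have hSAe : SA = ∅ := by
      rw [← Finset.card_eq_zero]
      rw [hSBe] at hcard'
      simpa using hcard'
    have hroots : ∀ x, ∃ z, ι z = x := by
      intro x
      by_contra hcon
      push Not at hcon
      by_cases hs : side (c x)
      · have : x ∈ SB := by simp [hSB, hcon, hs]
        rw [hSBe] at this
        simp at this
      · have : x ∈ SA := by simp [hSA, hcon, hs]
        rw [hSAe] at this
        simp at this
    refine ⟨fun w => {ι w}, fun w => rfl, ?_, ?_, ?_⟩
    · rintro w x hx y hy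
      rw [Set.mem_singleton_iff] at hx hy
      subst hx; subst hy; exact ReflTransGen.refl
    · intro w w' hww'
      rw [Set.disjoint_singleton]
      intro h
      exact hww' (by rw [← hG.1 w, h, hG.1 w'])
    · intro w w' hww'
      obtain ⟨x1, hc1, hadj1, _⟩ := hwalk w w' hww'
      obtain ⟨z, hz⟩ := hroots x1
      have : z = w' := by rw [← hc1, ← hz, hG.1]
      subst this
      exact ⟨ι w, rfl, ι z, rfl, hz ▸ hadj1⟩
  -- labels
  have hWne : Nonempty W := by
    obtain ⟨x, _⟩ := hSBe
    exact ⟨c x⟩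
  let δ : V → (V → ℚ) := fun x => if ∃ z, ι z = x then 0 else Pi.single x 1
  let vec : W → V → (V → ℚ) := fun w y =>
    if on (c y) w y then δ (a (c y) w y) - δ (b (c y) w y) else 0
  have hrank : ∑ w, finrank ℚ ↥(span ℚ (vec w '' (SB : Set V))) ≤ SB.card := by
    refine le_trans ?_ hcard'
    have hfib : SA.card = ∑ w, (SA.filter (fun x => c x = w)).card :=
      Finset.card_eq_sum_card_fiberwise (fun x _ => Finset.mem_coe.mpr (Finset.mem_univ _))
    rw [hfib]
    apply Finset.sum_le_sum
    intro w _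
    have hsub : span ℚ (vec w '' (SB : Set V)) ≤
        span ℚ (((SA.filter (fun x => c x = w)).image δ : Finset (V → ℚ)) : Set (V → ℚ)) := by
      rw [span_le]
      rintro _ ⟨y, hy, rfl⟩
      simp only [vec]
      split_ifs with hony
      · obtain ⟨hadj, _, _, _, _, hca, hcb⟩ := hon _ _ _ hony
        have hsy : side (c y) := by
          have := Finset.mem_coe.mp hy
          simp only [hSB, Finset.mem_filter] at this
          exact this.2.2
        have hsw : ¬ side w := (hside _ _ hadj).mp hsy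
        have hδ : ∀ x, c x = w → δ x ∈ span ℚ
            (((SA.filter (fun x => c x = w)).image δ : Finset (V → ℚ)) : Set (V → ℚ)) := by
          intro x hx
          by_cases hroot : ∃ z, ι z = x
          · have : δ x = 0 := by simp only [δ]; rw [if_pos hroot]
            rw [this]; exact Submodule.zero_mem _
          · apply subset_span
            rw [Finset.coe_image]
            refine ⟨x, ?_, rfl⟩
            rw [Finset.mem_coe, Finset.mem_filter]
            refine ⟨?_, hx⟩
            simp only [hSA, Finset.mem_filter, Finset.mem_univ, true_and]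
            refine ⟨fun z hz => hroot ⟨z, hz⟩, ?_⟩
            rw [hx]; exact hsw
        exact Submodule.sub_mem _ (hδ _ hca) (hδ _ hcb)
      · exact Submodule.zero_mem _
    refine (Submodule.finrank_mono hsub).trans ?_
    exact (finrank_span_finset_le_card _).trans Finset.card_image_le
  obtain ⟨L, hLS, hLn, o, ho⟩ := exists_selfspan ℚ vec SB hSBe hrank
  have hLprop : ∀ y ∈ L, (∀ z, ι z ≠ y) ∧ side (c y) := by
    intro y hy
    have := hLS hy
    simp only [hSB, Finset.mem_filter, Finset.mem_univ, true_and] at this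
    exact this
  -- generating relation
  let gen : V → V → Prop := fun x x' => ∃ y ∈ L, on (c y) (o y) y ∧ a (c y) (o y) y = x ∧
    b (c y) (o y) y = x'
  have hgencol : ∀ x x', gen x x' → c x = c x' ∧ ¬ side (c x) ∧ ¬ side (c x') := by
    rintro x x' ⟨y, hy, hony, rfl, rfl⟩
    obtain ⟨hadj, _, _, _, _, hca, hcb⟩ := hon _ _ _ hony
    rw [hca, hcb]
    have := (hside _ _ hadj).mp (hLprop y hy).2
    exact ⟨rfl, this, this⟩
  have hEGcol : ∀ x x', EqvGen gen x x' → c x = c x' := by
    intro x x' h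
    induction h with
    | rel x y h => exact (hgencol x y h).1
    | refl x => rfl
    | symm x y _ ih => exact ih.symm
    | trans x y z _ _ ih1 ih2 => exact ih1.trans ih2
  have hEGB : ∀ x x', EqvGen gen x x' → (side (c x) ∨ side (c x')) → x = x' := by
    intro x x' h
    induction h with
    | rel x y h =>
      intro hs
      have := hgencol x y h
      rcases hs with hs | hs
      · exact (this.2.1 hs).elim
      · exact (this.2.2 hs).elim
    | refl x => intro _; rfl
    | symm x y _ ih => intro hs; exact (ih hs.symm).symm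
    | trans x y z hxy hyz ih1 ih2 =>
      intro hs
      have h1 := hEGcol _ _ hxy
      have h2 := hEGcol _ _ hyz
      have hsx : side (c x) := by
        rcases hs with hs | hs
        · exact hs
        · rw [h1, h2]; exact hs
      rw [ih1 (Or.inl hsx)]
      apply ih2
      left
      rw [← h1]; exact hsx
  -- closed sets avoiding the root
  have hclosed : ∀ y ∈ L, ∀ w, on (c y) w y → ∀ Z : Set V,
      (∀ x x', gen x x' → (x ∈ Z ↔ x' ∈ Z)) → ι w ∉ Z →
      (a (c y) w y ∈ Z ↔ b (c y) w y ∈ Z) := by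
    intro y hy w hony Z hZ hrootZ
    let φ : (V → ℚ) →ₗ[ℚ] ℚ := ∑ x ∈ Finset.univ.filter (fun x => x ∈ Z), LinearMap.proj x
    have hφδ : ∀ x, c x = w → φ (δ x) = if x ∈ Z then 1 else 0 := by
      intro x hx
      by_cases hroot : ∃ z, ι z = x
      · have h0 : δ x = 0 := by simp only [δ]; rw [if_pos hroot]
        obtain ⟨z, rfl⟩ := hroot
        rw [hG.1] at hx
        subst hx
        rw [h0, map_zero, if_neg hrootZ]
      · have h0 : δ x = Pi.single x 1 := by simp only [δ]; rw [if_neg hroot]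
        rw [h0]
        simp only [φ, LinearMap.sum_apply, LinearMap.proj_apply]
        rw [Finset.sum_pi_single']
        simp
    have hker : vec w y ∈ LinearMap.ker φ := by
      have hspan := ho w y hy
      refine (span_le.mpr ?_ : span ℚ _ ≤ LinearMap.ker φ) hspan
      rintro _ ⟨e, ⟨heL, hoe⟩, rfl⟩
      simp only [vec]
      split_ifs with hone
      · obtain ⟨_, _, _, _, _, hca, hcb⟩ := hon _ _ _ hone
        rw [SetLike.mem_coe, LinearMap.mem_ker, map_sub, hφδ _ hca, hφδ _ hcb]
        have hg : gen (a (c e) w e) (b (c e) w e) := ⟨e, heL, by rw [hoe]; exact hone,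
          by rw [hoe], by rw [hoe]⟩
        have := hZ _ _ hg
        by_cases h1 : a (c e) w e ∈ Z
        · rw [if_pos h1, if_pos (this.mp h1), sub_self]
        · rw [if_neg h1, if_neg (fun h2 => h1 (this.mpr h2)), sub_self]
      · exact Submodule.zero_mem _
    rw [LinearMap.mem_ker] at hker
    simp only [vec] at hker
    rw [if_pos hony, map_sub] at hker
    obtain ⟨_, _, _, _, _, hca, hcb⟩ := hon _ _ _ hony
    rw [hφδ _ hca, hφδ _ hcb] at hker
    by_cases h1 : a (c y) w y ∈ Z <;> by_cases h2 : b (c y) w y ∈ Z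
    · exact ⟨fun _ => h2, fun _ => h1⟩
    · rw [if_pos h1, if_neg h2] at hker; norm_num at hker
    · rw [if_neg h1, if_pos h2] at hker; norm_num at hker
    · exact ⟨fun h => (h1 h).elim, fun h => (h2 h).elim⟩
  have hEGclosed : ∀ p x x', gen x x' → (x ∈ {q | EqvGen gen q p} ↔ x' ∈ {q | EqvGen gen q p}) := by
    intro p x x' h
    constructor
    · intro hx; exact EqvGen.trans _ _ _ (EqvGen.symm _ _ (EqvGen.rel _ _ h)) hx
    · intro hx; exact EqvGen.trans _ _ _ (EqvGen.rel _ _ h) hx
  have hmerge : ∀ y ∈ L, ∀ w, on (c y) w y → EqvGen gen (a (c y) w y) (b (c y) w y) := by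
    intro y hy w hony
    by_cases h1 : EqvGen gen (ι w) (a (c y) w y)
    · by_cases h2 : EqvGen gen (ι w) (b (c y) w y)
      · exact EqvGen.trans _ _ _ (EqvGen.symm _ _ h1) h2
      · have := hclosed y hy w hony {q | EqvGen gen q (b (c y) w y)} (hEGclosed _) h2
        exact this.mpr (EqvGen.refl _)
    · have := hclosed y hy w hony {q | EqvGen gen q (a (c y) w y)} (hEGclosed _) h1
      exact EqvGen.symm _ _ (this.mp (EqvGen.refl _))
  -- representatives
  let st : Setoid V := EqvGen.setoid gen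
  let rep : V → V := fun x => if EqvGen gen x (ι (c x)) then ι (c x)
    else Quotient.out (Quotient.mk st x)
  have hout : ∀ x, EqvGen gen (Quotient.out (Quotient.mk st x)) x := by
    intro x
    exact Quotient.exact (Quotient.out_eq (Quotient.mk st x))
  have hrepE : ∀ x, EqvGen gen x (rep x) := by
    intro x
    simp only [rep]
    split_ifs with h
    · exact h
    · exact EqvGen.symm _ _ (hout x)
  have hrepeq : ∀ x x', EqvGen gen x x' → rep x = rep x' := by
    intro x x' h
    have hc := hEGcol _ _ h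
    simp only [rep]
    by_cases h1 : EqvGen gen x (ι (c x))
    · have h2 : EqvGen gen x' (ι (c x')) := by
        rw [← hc]; exact EqvGen.trans _ _ _ (EqvGen.symm _ _ h) h1
      rw [if_pos h1, if_pos h2, hc]
    · have h2 : ¬ EqvGen gen x' (ι (c x')) := by
        intro h2; apply h1
        rw [hc]; exact EqvGen.trans _ _ _ h h2
      rw [if_neg h1, if_neg h2]
      congr 1
      exact Quotient.sound h
  have hrepι : ∀ w, rep (ι w) = ι w := by
    intro w
    simp only [rep]
    rw [hG.1, if_pos (EqvGen.refl _)]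
  have hrepB : ∀ x, side (c x) → rep x = x := by
    intro x hx
    exact (hEGB _ _ (hrepE x) (Or.inl hx)).symm
  have hreprep : ∀ x, rep (rep x) = rep x := fun x => (hrepeq _ _ (hrepE x)).symm
  have hcrep : ∀ x, c (rep x) = c x := fun x => (hEGcol _ _ (hrepE x)).symm
  have hAnotL : ∀ x, ¬ side (c x) → x ∉ L := fun x hx hxL => hx (hLprop x hxL).2
  have hιL : ∀ w, ι w ∉ L := fun w hw => (hLprop _ hw).1 w rfl
  refine reduce (c := c) hG.1 IH {z | z ∉ L ∧ rep z = z} ?_
    (fun z => {x | x ∉ L ∧ rep x = z} ∪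
      {y | y ∈ L ∧ on (c y) (o y) y ∧ rep (a (c y) (o y) y) = z})
    (fun w => ⟨hιL w, hrepι w⟩) ?_ ?_ ?_ ?_
  · intro h
    obtain ⟨y, hy⟩ := hLn
    have : y ∈ {z | z ∉ L ∧ rep z = z} := h ▸ Set.mem_univ y
    exact this.1 hy
  · intro z hz
    exact Or.inl hz
  · intro z _ z' _ hzz'
    rw [Set.disjoint_left]
    rintro x (⟨hx1, hx2⟩ | ⟨hx1, hx2, hx3⟩) (⟨hx1', hx2'⟩ | ⟨hx1', hx2', hx3'⟩)
    · exact hzz' (hx2.symm.trans hx2')
    · exact hx1 hx1'
    · exact hx1' hx1
    · exact hzz' (hx3.symm.trans hx3')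
  · intro z hz
    obtain ⟨hzL, hzr⟩ := hz
    set Bz : Set V := {x | x ∉ L ∧ rep x = z} ∪
      {y | y ∈ L ∧ on (c y) (o y) y ∧ rep (a (c y) (o y) y) = z} with hBz
    have hgenconn : ∀ x x', EqvGen gen x x' → rep x = z → Conn G Bz x x' := by
      intro x x' h
      induction h with
      | rel x x' h =>
        intro hx
        have hcol := hgencol x x' h
        have hx' : rep x' = z := by rw [← hrepeq _ _ (EqvGen.rel _ _ h)]; exact hx
        have hxB : x ∈ Bz := Or.inl ⟨hAnotL x hcol.2.1, hx⟩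
        have hxB' : x' ∈ Bz := Or.inl ⟨hAnotL x' hcol.2.2, hx'⟩
        obtain ⟨y, hyL, hony, rfl, rfl⟩ := h
        have hyB : y ∈ Bz := Or.inr ⟨hyL, hony, hx⟩
        obtain ⟨_, _, _, ha, hb, _, _⟩ := hon _ _ _ hony
        exact ReflTransGen.tail (ReflTransGen.single ⟨hxB, hyB, ha.symm⟩) ⟨hyB, hxB', hb⟩
      | refl x => intro _; exact ReflTransGen.refl
      | symm x x' h ih =>
        intro hx
        exact (ih (by rw [hrepeq _ _ h]; exact hx)).symm
      | trans x y w hxy hyw ih1 ih2 =>
        intro hx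
        exact (ih1 hx).trans (ih2 (by rw [← hrepeq _ _ hxy]; exact hx))
    have hto : ∀ x ∈ Bz, Conn G Bz x z := by
      rintro x (⟨hx1, hx2⟩ | ⟨hx1, hx2, hx3⟩)
      · have h1 := hrepE x
        rw [hx2] at h1
        exact hgenconn x z h1 hx2
      · obtain ⟨hadj, _, _, ha, _, hca, _⟩ := hon _ _ _ hx2
        have hna : ¬ side (c (a (c x) (o x) x)) := by
          rw [hca]; exact (hside _ _ hadj).mp (hLprop x hx1).2
        have h1 := hrepE (a (c x) (o x) x)
        rw [hx3] at h1
        exact ReflTransGen.head ⟨Or.inr ⟨hx1, hx2, hx3⟩, Or.inl ⟨hAnotL _ hna, hx3⟩, ha⟩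
          (hgenconn _ z h1 hx3)
    intro x hx y hy
    exact (hto x hx).trans (hto y hy).symm
  · -- connections survive
    have hB1 : ∀ x, x ∉ L → x ∈ ({x_1 | x_1 ∉ L ∧ rep x_1 = rep x} ∪
      {y | y ∈ L ∧ on (c y) (o y) y ∧ rep (a (c y) (o y) y) = rep x} : Set V) :=
      fun x hx => Or.inl ⟨hx, rfl⟩
    have main : ∀ p q, H.Adj p q → side p →
        ReflTransGen (fun x y => x ∈ {z | z ∉ L ∧ rep z = z} ∧ y ∈ {z | z ∉ L ∧ rep z = z} ∧
          (c x = p ∨ c x = q) ∧ (c y = p ∨ c y = q) ∧
          ∃ p ∈ ({x_1 | x_1 ∉ L ∧ rep x_1 = x} ∪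
            {y | y ∈ L ∧ on (c y) (o y) y ∧ rep (a (c y) (o y) y) = x} : Set V),
          ∃ q ∈ ({x | x ∉ L ∧ rep x = y} ∪
            {y_1 | y_1 ∈ L ∧ on (c y_1) (o y_1) y_1 ∧ rep (a (c y_1) (o y_1) y_1) = y} : Set V),
            G.Adj p q) (ι p) (ι q) := by
      intro p q hpq hsp
      have hsq : ¬ side q := (hside _ _ hpq).mp hsp
      obtain ⟨x1, hcx1, hadj1, hw⟩ := hwalk p q hpq
      have hrepT : ∀ x, ¬ side (c x) → rep x ∈ {z | z ∉ L ∧ rep z = z} := by
        intro x hx
        exact ⟨hAnotL _ (by rw [hcrep]; exact hx), hreprep x⟩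
      have hfirst : ReflTransGen (fun x y => x ∈ {z | z ∉ L ∧ rep z = z} ∧
          y ∈ {z | z ∉ L ∧ rep z = z} ∧
          (c x = p ∨ c x = q) ∧ (c y = p ∨ c y = q) ∧
          ∃ p ∈ ({x_1 | x_1 ∉ L ∧ rep x_1 = x} ∪
            {y | y ∈ L ∧ on (c y) (o y) y ∧ rep (a (c y) (o y) y) = x} : Set V),
          ∃ q ∈ ({x | x ∉ L ∧ rep x = y} ∪
            {y_1 | y_1 ∈ L ∧ on (c y_1) (o y_1) y_1 ∧ rep (a (c y_1) (o y_1) y_1) = y} : Set V),
            G.Adj p q) (ι p) (rep x1) := by
        apply ReflTransGen.single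
        refine ⟨⟨hιL p, hrepι p⟩, hrepT x1 (by rw [hcx1]; exact hsq), Or.inl (hG.1 p),
          Or.inr (by rw [hcrep]; exact hcx1), ι p, Or.inl ⟨hιL p, hrepι p⟩, x1,
          Or.inl ⟨hAnotL x1 (by rw [hcx1]; exact hsq), rfl⟩, hadj1⟩
      have hlast : ∀ z, ReflTransGen (fun x x' => ∃ y, on p q y ∧ a p q y = x ∧ b p q y = x') x1 z →
          ReflTransGen (fun x y => x ∈ {z | z ∉ L ∧ rep z = z} ∧
          y ∈ {z | z ∉ L ∧ rep z = z} ∧
          (c x = p ∨ c x = q) ∧ (c y = p ∨ c y = q) ∧
          ∃ p ∈ ({x_1 | x_1 ∉ L ∧ rep x_1 = x} ∪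
            {y | y ∈ L ∧ on (c y) (o y) y ∧ rep (a (c y) (o y) y) = x} : Set V),
          ∃ q ∈ ({x | x ∉ L ∧ rep x = y} ∪
            {y_1 | y_1 ∈ L ∧ on (c y_1) (o y_1) y_1 ∧ rep (a (c y_1) (o y_1) y_1) = y} : Set V),
            G.Adj p q) (ι p) (rep z) := by
        intro z hz
        induction hz with
        | refl => exact hfirst
        | @tail s t _ hst ih =>
          obtain ⟨y, hony, rfl, rfl⟩ := hst
          obtain ⟨_, hcy, hyroot, hya, hyb, hca, hcb⟩ := hon _ _ _ hony
          by_cases hyL : y ∈ L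
          · have h1 := hmerge y hyL q (by rw [hcy]; exact hony)
            rw [hcy] at h1
            rw [← hrepeq _ _ h1]
            exact ih
          · have hsy : side (c y) := by rw [hcy]; exact hsp
            have hyT : y ∈ {z | z ∉ L ∧ rep z = z} := ⟨hyL, hrepB y hsy⟩
            have hsa : ¬ side (c (a p q y)) := by rw [hca]; exact hsq
            have hsb : ¬ side (c (b p q y)) := by rw [hcb]; exact hsq
            refine ReflTransGen.tail (ReflTransGen.tail ih ?_ : ReflTransGen _ (ι p) y) ?_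
            · exact ⟨hrepT _ hsa, hyT, Or.inr (by rw [hcrep]; exact hca), Or.inl hcy,
                a p q y, Or.inl ⟨hAnotL _ hsa, rfl⟩, y, Or.inl hyT, hya.symm⟩
            · exact ⟨hyT, hrepT _ hsb, Or.inl hcy, Or.inr (by rw [hcrep]; exact hcb),
                y, Or.inl hyT, b p q y, Or.inl ⟨hAnotL _ hsb, rfl⟩, hyb⟩
      have := hlast _ hw
      rwa [hrepι] at this
    intro p q hpq
    by_cases hsp : side p
    · exact main p q hpq hsp
    · have hsq : side q := by
        by_contra hcon
        exact hsp ((hside _ _ hpq).mpr hcon)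
      have h1 := main q p hpq.symm hsq
      -- reverse
      have hrev : ∀ z, ReflTransGen (fun x y => x ∈ {z | z ∉ L ∧ rep z = z} ∧
          y ∈ {z | z ∉ L ∧ rep z = z} ∧
          (c x = q ∨ c x = p) ∧ (c y = q ∨ c y = p) ∧
          ∃ p ∈ ({x_1 | x_1 ∉ L ∧ rep x_1 = x} ∪
            {y | y ∈ L ∧ on (c y) (o y) y ∧ rep (a (c y) (o y) y) = x} : Set V),
          ∃ q ∈ ({x | x ∉ L ∧ rep x = y} ∪
            {y_1 | y_1 ∈ L ∧ on (c y_1) (o y_1) y_1 ∧ rep (a (c y_1) (o y_1) y_1) = y} : Set V),
            G.Adj p q) (ι q) z →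
          ReflTransGen (fun x y => x ∈ {z | z ∉ L ∧ rep z = z} ∧
          y ∈ {z | z ∉ L ∧ rep z = z} ∧
          (c x = p ∨ c x = q) ∧ (c y = p ∨ c y = q) ∧
          ∃ p ∈ ({x_1 | x_1 ∉ L ∧ rep x_1 = x} ∪
            {y | y ∈ L ∧ on (c y) (o y) y ∧ rep (a (c y) (o y) y) = x} : Set V),
          ∃ q ∈ ({x | x ∉ L ∧ rep x = y} ∪
            {y_1 | y_1 ∈ L ∧ on (c y_1) (o y_1) y_1 ∧ rep (a (c y_1) (o y_1) y_1) = y} : Set V),
            G.Adj p q) z (ι q) := by
        intro z hz
        induction hz with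
        | refl => exact ReflTransGen.refl
        | @tail s t _ hst ih =>
          obtain ⟨h1, h2, h3, h4, r, hr, r', hr', hrr'⟩ := hst
          exact ReflTransGen.head ⟨h2, h1, h4.symm, h3.symm, r', hr', r, hr, hrr'.symm⟩ ih
      exact hrev _ h1

/-- Main theorem in coloured form. -/
theorem main_colored {W : Type v} (H : SimpleGraph W) (side : W → Prop)
    (hside : ∀ a b, H.Adj a b → (side a ↔ ¬ side b)) :
    ∀ (n : ℕ) (V : Type u) [Finite V] (G : SimpleGraph V) (c : V → W) (ι : W → V),
      Nat.card V = n → Good G c ι H → RM G ι H := by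
  intro n
  induction n using Nat.strong_induction_on with
  | _ n ih =>
  intro V _ G c ι hn hG
  have IH : ∀ (V' : Type u) [Finite V'] (G' : SimpleGraph V') (c' : V' → W) (ι' : W → V'),
      Nat.card V' < Nat.card V → Good G' c' ι' H → RM G' ι' H := by
    intro V' _ G' c' ι' hlt hG'
    exact ih (Nat.card V') (hn ▸ hlt) V' G' c' ι' rfl hG'
  by_cases hproper : ∀ x y, G.Adj x y → c x ≠ c y
  · rcases le_total {x | (∀ z, ι z ≠ x) ∧ ¬ side (c x)}.ncard
      {x | (∀ z, ι z ≠ x) ∧ side (c x)}.ncard with h | h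
    · exact contract_labels hG hproper side hside h IH
    · refine contract_labels hG hproper (fun w => ¬ side w) ?_ ?_ IH
      · intro a b hab
        have := hside a b hab
        tauto
      · simpa using h
  · push Not at hproper
    obtain ⟨x, y, hxy, hc⟩ := hproper
    by_cases hx : ∀ w, ι w ≠ x
    · exact contract_mono hG IH hxy hc hx
    · push Not at hx
      obtain ⟨w, rfl⟩ := hx
      refine contract_mono hG IH hxy.symm hc.symm ?_
      rintro w' rfl
      rw [hG.1, hG.1] at hc
      subst hc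
      exact hxy.ne rfl

end Pool.Agent.W_MP_a02419_co
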