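import Mathlib
import Pool.Agent.W_MP_a02419_co.Main

/-!
# Every finite bipartite graph is scheme-contractible

In particular every bipartite theta graph is scheme-contractible (`theta` below).
-/

namespace Pool.Agent.W_MP_a02419_co.BipartiteContractible49

universe u v

/-- `G` contains an `H`-scheme. The injection `ι` identifies `V(H)` with a subset of `V(G)`.
For every edge `ab` of `H` there is a path `P a b` of `G` from `a` to `b` (one path per edge:
`P b a` is the reversal of `P a b`) such that
1. `P a b` contains no vertex of `H` other than `a` and `b`;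
2. whenever the paths of a nonempty set `S` of edges of `H` have a common vertex, the edges in `S`
   share a common endpoint in `H`. -/
def HasScheme {V : Type u} {W : Type v} (G : SimpleGraph V) (H : SimpleGraph W) (ι : W ↪ V) :
    Prop :=
  ∃ P : ∀ a b : W, H.Adj a b → G.Walk (ι a) (ι b),
    (∀ a b (h : H.Adj a b), P b a h.symm = (P a b h).reverse) ∧
    (∀ a b (h : H.Adj a b), (P a b h).IsPath) ∧
    (∀ a b (h : H.Adj a b) (w : W), ι w ∈ (P a b h).support → w = a ∨ w = b) ∧
    (∀ S : Set (Sym2 W), S.Nonempty → S ⊆ H.edgeSet →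
      (∃ x : V, ∀ a b (h : H.Adj a b), s(a, b) ∈ S → x ∈ (P a b h).support) →
      ∃ z : W, ∀ e ∈ S, z ∈ e)

/-- `G` has a rooted `H`-minor: pairwise vertex-disjoint connected subgraphs `C w` of `G`, with
`w` in `C w`, such that for every edge `ab` of `H` some edge of `G` joins `C a` and `C b`. -/
def HasRootedMinor {V : Type u} {W : Type v} (G : SimpleGraph V) (H : SimpleGraph W)
    (ι : W ↪ V) : Prop :=
  ∃ C : W → G.Subgraph,
    (∀ w, (C w).Connected) ∧
    (∀ w, ι w ∈ (C w).verts) ∧
    (∀ w w', w ≠ w' → Disjoint (C w).verts (C w').verts) ∧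
    (∀ a b, H.Adj a b → ∃ x ∈ (C a).verts, ∃ y ∈ (C b).verts, G.Adj x y)

/-- `H` is scheme-contractible: every finite graph `G` that contains an `H`-scheme has a rooted
`H`-minor. -/
def SchemeContractible {W : Type v} (H : SimpleGraph W) : Prop :=
  ∀ (V : Type u) [Finite V] (G : SimpleGraph V) (ι : W ↪ V),
    HasScheme G H ι → HasRootedMinor G H ι

/-- Theta graph: the union of three paths joining the same two distinct vertices, pairwise sharing
only these two end vertices, at most one of the three having length `1`. -/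
def IsTheta {W : Type v} (H : SimpleGraph W) : Prop :=
  ∃ (s t : W) (p q r : H.Walk s t), s ≠ t ∧ p.IsPath ∧ q.IsPath ∧ r.IsPath ∧
    (∀ x, x ∈ p.support → x ∈ q.support → x = s ∨ x = t) ∧
    (∀ x, x ∈ p.support → x ∈ r.support → x = s ∨ x = t) ∧
    (∀ x, x ∈ q.support → x ∈ r.support → x = s ∨ x = t) ∧
    ¬ (p.length = 1 ∧ q.length = 1) ∧ ¬ (p.length = 1 ∧ r.length = 1) ∧
    ¬ (q.length = 1 ∧ r.length = 1) ∧
    (∀ x, x ∈ p.support ∨ x ∈ q.support ∨ x ∈ r.support) ∧
    (∀ e ∈ H.edgeSet, e ∈ p.edges ∨ e ∈ q.edges ∨ e ∈ r.edges)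

open Pool.Agent.W_MP_a02419_co Relation

theorem conn_of_walk {V : Type u} {G : SimpleGraph V} {S : Set V} {a b : V} (p : G.Walk a b)
    (hp : ∀ x ∈ p.support, x ∈ S) : Conn G S a b := by
  induction p with
  | nil => exact ReflTransGen.refl
  | cons h q ih =>
    refine ReflTransGen.head ⟨hp _ (by simp), hp _ (by simp), h⟩ (ih ?_)
    intro x hx
    exact hp x (by simp [hx])

theorem rootedMinor_of_RM {V : Type u} {W : Type v} {G : SimpleGraph V} {H : SimpleGraph W}
    {ι : W ↪ V} (h : RM G ι H) : HasRootedMinor G H ι := by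
  obtain ⟨C, h1, h2, h3, h4⟩ := h
  refine ⟨fun w => (⊤ : G.Subgraph).induce (C w), ?_, h1, h3, h4⟩
  intro w
  rw [SimpleGraph.Subgraph.connected_iff]
  refine ⟨?_, ⟨ι w, h1 w⟩⟩
  rw [SimpleGraph.Subgraph.preconnected_iff]
  rintro ⟨x, hx⟩ ⟨y, hy⟩
  have hxy : Conn G (C w) x y := h2 w x hx y hy
  have key : ∀ z, Conn G (C w) x z → ∃ hz : z ∈ C w,
      (((⊤ : G.Subgraph).induce (C w)).coe).Reachable ⟨x, hx⟩ ⟨z, hz⟩ := by
    intro z hz
    unfold Conn at hz
    induction hz with
    | refl => exact ⟨hx, SimpleGraph.Reachable.refl _⟩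
    | @tail s t _ hst ih =>
      obtain ⟨hs, ht, hadj⟩ := hst
      obtain ⟨hs', ih⟩ := ih
      refine ⟨ht, ih.trans ?_⟩
      apply SimpleGraph.Adj.reachable
      simp [SimpleGraph.Subgraph.induce_adj, hs, ht, hadj]
  obtain ⟨_, h⟩ := key y hxy
  exact h

theorem good_of_scheme {V : Type u} {W : Type v} [Nonempty W] {G : SimpleGraph V}
    {H : SimpleGraph W} {ι : W ↪ V} (h : HasScheme G H ι) : ∃ c : V → W, Good G c ι H := by
  classical
  obtain ⟨P, hrev, hpath, hP1, hP2⟩ := h
  have hex : ∀ x : V, ∃ z : W, (∀ w, ι w = x → z = w) ∧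
      ∀ a b (h : H.Adj a b), x ∈ (P a b h).support → z = a ∨ z = b := by
    intro x
    by_cases hroot : ∃ w, ι w = x
    · obtain ⟨w, rfl⟩ := hroot
      refine ⟨w, fun w' hw' => ι.injective hw'.symm, fun a b h hx => hP1 a b h w hx⟩
    · by_cases hon : ∃ a b, ∃ h : H.Adj a b, x ∈ (P a b h).support
      · obtain ⟨a₀, b₀, h₀, hx₀⟩ := hon
        set S : Set (Sym2 W) := {e | ∃ a b, ∃ h : H.Adj a b, x ∈ (P a b h).support ∧ e = s(a, b)}
          with hS
        have hSn : S.Nonempty := ⟨s(a₀, b₀), a₀, b₀, h₀, hx₀, rfl⟩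
        have hSe : S ⊆ H.edgeSet := by
          rintro e ⟨a, b, h, _, rfl⟩
          exact h
        obtain ⟨z, hz⟩ := hP2 S hSn hSe ⟨x, by
          rintro a b h ⟨a', b', h', hx', he⟩
          rw [Sym2.eq_iff] at he
          rcases he with ⟨rfl, rfl⟩ | ⟨rfl, rfl⟩
          · exact hx'
          · rw [hrev _ _ h'] 
            rw [SimpleGraph.Walk.support_reverse, List.mem_reverse]
            exact hx'⟩
        refine ⟨z, fun w hw => (hroot ⟨w, hw⟩).elim, ?_⟩
        intro a b h hx
        have := hz s(a, b) ⟨a, b, h, hx, rfl⟩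
        rwa [Sym2.mem_iff] at this
      · refine ⟨Classical.arbitrary W, fun w hw => (hroot ⟨w, hw⟩).elim, ?_⟩
        intro a b h hx
        exact (hon ⟨a, b, h, hx⟩).elim
  choose c hc1 hc2 using hex
  refine ⟨c, fun w => hc1 _ w rfl, ?_⟩
  intro a b hab
  exact conn_of_walk (P a b hab) (fun x hx => hc2 x a b hab hx)

/-- Every finite bipartite graph is scheme-contractible. -/
theorem result : ∀ (W : Type v) [Finite W] (H : SimpleGraph W), H.IsBipartite →
    SchemeContractible.{u, v} H := by
  intro W _ H hH V _ G ι hsch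
  by_cases hW : Nonempty W
  · obtain ⟨c, hc⟩ := good_of_scheme hsch
    obtain ⟨C⟩ := hH
    apply rootedMinor_of_RM
    refine main_colored H (fun w => C w = 0) ?_ (Nat.card V) V G c ι rfl hc
    intro a b hab
    have h1 := C.valid hab
    constructor
    · intro ha hb
      exact h1 (ha.trans hb.symm)
    · intro hb
      by_contra ha
      apply h1
      have e1 : C a = 1 := by
        have := Fin.exists_fin_two.mp ⟨C a, rfl⟩
        omega
      have e2 : C b = 1 := by
        omega
      rw [e1, e2]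
  · rw [not_nonempty_iff] at hW
    exact ⟨fun w => hW.elim w, fun w => hW.elim w, fun w => hW.elim w, fun w => hW.elim w,
      fun a => hW.elim a⟩

/-- The question as posed: every bipartite theta graph is scheme-contractible. -/
theorem theta (W : Type v) [Finite W] (H : SimpleGraph W) (_ : IsTheta H) (hb : H.IsBipartite) :
    SchemeContractible.{u, v} H :=
  result W H hb

end Pool.Agent.W_MP_a02419_co.BipartiteContractible49
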